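import Pool.Agent.Lib_LogRel.DC

/-!
# Logarithms of almost all integers: definitions

Plan (board note LA): W finite dimensional over the algebraic numbers, D a degree. The integers a
whose logarithm is a root of a nonzero polynomial of degree at most D with coefficients in W have
logarithmic density zero.
-/

set_option autoImplicit false

namespace Pool.Agent.LogAll

open Filter Topology

/-- logarithmic mean of the set `A` up to `x` -/
noncomputable def LD (A : Set ℕ) (x : ℕ) : ℝ :=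
  (∑ a ∈ Finset.Icc 1 x, A.indicator (fun a : ℕ => (1 : ℝ) / a) a) / Real.log x

/-- finitely additive means on the positive integers, covariant for dilations -/
structure IsMean (μ : Set ℕ → ℝ) : Prop where
  nonneg : ∀ A, 0 ≤ μ A
  mono : ∀ A B, A ⊆ B → μ A ≤ μ B
  add : ∀ A B, Disjoint A B → μ (A ∪ B) = μ A + μ B
  univ : μ Set.univ = 1
  zero : μ {0} = 0
  dil : ∀ p : ℕ, 0 < p → ∀ A : Set ℕ, μ ((fun a => p * a) '' A) = μ A / p
  primes : ∀ T : Set ℕ, (∀ p ∈ T, 0 < p) → Summable (T.indicator fun p : ℕ => (1 : ℝ) / p) →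
    μ {a | ∃ p ∈ T, p ∣ a} ≤ ∑' p, T.indicator (fun p : ℕ => (1 : ℝ) / p) p
  quad : ∀ (P : Finset ℕ) (A : Set ℕ) (t c : ℝ),
    0 ≤ t ^ 2 * μ A + ∑ p ∈ P, ∑ q ∈ P, μ ({a | p ∣ a} ∩ {a | q ∣ a}) + c ^ 2
      + 2 * t * ∑ p ∈ P, μ (A ∩ {a | p ∣ a}) - 2 * t * c * μ A - 2 * c * ∑ p ∈ P, μ {a | p ∣ a}

/-- sets of primes with convergent sum of reciprocals -/
def Small (T : Set ℕ) : Prop :=
  Summable ({p : ℕ | p.Prime ∧ p ∈ T}.indicator fun p : ℕ => (1 : ℝ) / p)

theorem Small.mono {S T : Set ℕ} (hT : Small T) (h : S ⊆ T) : Small S := by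
  unfold Small at *
  refine Summable.of_nonneg_of_le (fun p => ?_) (fun p => ?_) hT
  · exact Set.indicator_nonneg (fun p _ => by positivity) p
  · have hsub : {p : ℕ | p.Prime ∧ p ∈ S} ⊆ {p : ℕ | p.Prime ∧ p ∈ T} :=
      fun p hp => ⟨hp.1, h hp.2⟩
    exact Set.indicator_le_indicator_of_subset hsub (fun p => by positivity) p

theorem Small.union {S T : Set ℕ} (hS : Small S) (hT : Small T) : Small (S ∪ T) := by
  unfold Small at *
  refine Summable.of_nonneg_of_le (fun p => ?_) (fun p => ?_) (hS.add hT)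
  · exact Set.indicator_nonneg (fun p _ => by positivity) p
  · by_cases h1 : p ∈ {p : ℕ | p.Prime ∧ p ∈ S}
    · rw [Set.indicator_of_mem (show p ∈ {p : ℕ | p.Prime ∧ p ∈ S ∪ T} from ⟨h1.1, Or.inl h1.2⟩),
        Set.indicator_of_mem h1]
      have : 0 ≤ Set.indicator {p : ℕ | p.Prime ∧ p ∈ T} (fun p : ℕ => (1 : ℝ) / p) p :=
        Set.indicator_nonneg (fun p _ => by positivity) p
      linarith
    · by_cases h2 : p ∈ {p : ℕ | p.Prime ∧ p ∈ T}
      · rw [Set.indicator_of_mem (show p ∈ {p : ℕ | p.Prime ∧ p ∈ S ∪ T} from ⟨h2.1, Or.inr h2.2⟩),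
          Set.indicator_of_mem h2]
        have : 0 ≤ Set.indicator {p : ℕ | p.Prime ∧ p ∈ S} (fun p : ℕ => (1 : ℝ) / p) p :=
          Set.indicator_nonneg (fun p _ => by positivity) p
        linarith
      · have h3 : p ∉ {p : ℕ | p.Prime ∧ p ∈ S ∪ T} := by
          rintro ⟨h3, h4 | h4⟩
          · exact h1 ⟨h3, h4⟩
          · exact h2 ⟨h3, h4⟩
        rw [Set.indicator_of_notMem h1, Set.indicator_of_notMem h2, Set.indicator_of_notMem h3]
        simp

theorem not_small_univ : ¬ Small Set.univ := by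
  unfold Small
  intro h
  apply not_summable_one_div_on_primes
  have h1 : {p : ℕ | p.Prime ∧ p ∈ Set.univ} = {p : ℕ | p.Prime} := by
    ext p; simp
  rw [h1] at h
  exact h

end Pool.Agent.LogAll
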