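import Mathlib

/-!
# Piece E: the Galois piece
-/

set_option autoImplicit false

namespace Pool.Agent.LogAll

open Filter Topology

private def WLe {ι : Type*} (w : ι → ℝ) (A : Set ι) (c : ℝ) : Prop :=
  ∀ P : Finset ι, ∑ p ∈ P, A.indicator w p ≤ c

private theorem wle_mono {ι : Type*} {w : ι → ℝ} (hw : ∀ p, 0 ≤ w p) {A B : Set ι} {c : ℝ}
    (hAB : A ⊆ B) (h : WLe w B c) : WLe w A c := fun P =>
  (Finset.sum_le_sum fun p _ => Set.indicator_le_indicator_of_subset hAB hw p).trans (h P)

private theorem wle_union {ι : Type*} {w : ι → ℝ} (hw : ∀ p, 0 ≤ w p) {A B : Set ι} {a b : ℝ}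
    (hA : WLe w A a) (hB : WLe w B b) : WLe w (A ∪ B) (a + b) := by
  intro P
  refine le_trans ?_ (add_le_add (hA P) (hB P))
  rw [← Finset.sum_add_distrib]
  refine Finset.sum_le_sum fun p _ => ?_
  classical
  simp only [Set.indicator_apply, Set.mem_union]
  have := hw p
  by_cases h1 : p ∈ A <;> by_cases h2 : p ∈ B <;> simp [h1, h2, this]

private theorem summable_of_wle {ι : Type*} {w : ι → ℝ} (hw : ∀ p, 0 ≤ w p) {A : Set ι} {c : ℝ}
    (h : WLe w A c) : Summable (A.indicator w) :=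
  summable_of_sum_le (fun p => Set.indicator_nonneg (fun p _ => hw p) p) h

private theorem exists_wle {ι : Type*} {w : ι → ℝ} (hw : ∀ p, 0 ≤ w p) {A : Set ι}
    (h : Summable (A.indicator w)) : ∃ n : ℕ, WLe w A n := by
  obtain ⟨n, hn⟩ := exists_nat_ge (∑' p, A.indicator w p)
  exact ⟨n, fun P => (h.sum_le_tsum P fun p _ => Set.indicator_nonneg (fun p _ => hw p) p).trans hn⟩

private def moved {ι F Ω : Type*} [Field F] [Field Ω] [Algebra F Ω] (x : ι → Ω)
    (σ : Ω ≃ₐ[F] Ω) : Set ι := {p | σ (x p) ≠ x p}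

private theorem moved_mul {ι F Ω : Type*} [Field F] [Field Ω] [Algebra F Ω] (x : ι → Ω)
    (σ τ : Ω ≃ₐ[F] Ω) : moved x (σ * τ) ⊆ moved x σ ∪ moved x τ := by
  intro p hp
  by_contra hcon
  simp only [moved, Set.mem_union, Set.mem_ofPred_eq, not_or, not_not] at hcon hp
  apply hp
  rw [AlgEquiv.mul_apply, hcon.2, hcon.1]

private theorem moved_inv {ι F Ω : Type*} [Field F] [Field Ω] [Algebra F Ω] (x : ι → Ω)
    (σ : Ω ≃ₐ[F] Ω) : moved x σ⁻¹ = moved x σ := by
  ext p
  simp only [moved, Set.mem_ofPred_eq, ne_eq, not_iff_not]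
  constructor
  · intro h
    calc σ (x p) = σ (σ⁻¹ (x p)) := by rw [h]
      _ = x p := by rw [← AlgEquiv.mul_apply, mul_inv_cancel, AlgEquiv.one_apply]
  · intro h
    calc σ⁻¹ (x p) = σ⁻¹ (σ (x p)) := by rw [h]
      _ = x p := by rw [← AlgEquiv.mul_apply, inv_mul_cancel, AlgEquiv.one_apply]

private theorem moved_inv_mul {ι F Ω : Type*} [Field F] [Field Ω] [Algebra F Ω] (x : ι → Ω)
    (σ τ : Ω ≃ₐ[F] Ω) : moved x (σ⁻¹ * τ) = {p | σ (x p) ≠ τ (x p)} := by
  ext p
  simp only [moved, Set.mem_ofPred_eq, ne_eq, not_iff_not, AlgEquiv.mul_apply]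
  constructor
  · intro h
    calc σ (x p) = σ (σ⁻¹ (τ (x p))) := by rw [h]
      _ = τ (x p) := by rw [← AlgEquiv.mul_apply, mul_inv_cancel, AlgEquiv.one_apply]
  · intro h
    calc σ⁻¹ (τ (x p)) = σ⁻¹ (σ (x p)) := by rw [h]
      _ = x p := by rw [← AlgEquiv.mul_apply, inv_mul_cancel, AlgEquiv.one_apply]

/-- The set of automorphisms which move a set of weight at most `c` is closed. -/
private theorem isClosed_wle {ι F Ω : Type*} [Field F] [Field Ω] [Algebra F Ω]
    [Algebra.IsIntegral F Ω] (x : ι → Ω) (w : ι → ℝ) (c : ℝ) :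
    IsClosed {σ : Ω ≃ₐ[F] Ω | WLe w (moved x σ) c} := by
  classical
  rw [← isOpen_compl_iff, isOpen_iff_mem_nhds]
  intro σ hσ
  have hσ' : ∃ P : Finset ι, c < ∑ p ∈ P, (moved x σ).indicator w p := by
    by_contra hcon
    push Not at hcon
    exact hσ hcon
  obtain ⟨P, hP⟩ := hσ'
  have hopen : IsOpen (⋂ p ∈ P, {τ : Ω ≃ₐ[F] Ω | τ (x p) = σ (x p)}) := by
    refine isOpen_biInter_finset fun p _ => ?_
    have h1 : {τ : Ω ≃ₐ[F] Ω | τ (x p) = σ (x p)}
        = (fun τ => σ⁻¹ * τ) ⁻¹' (MulAction.stabilizer (Ω ≃ₐ[F] Ω) (x p) : Set (Ω ≃ₐ[F] Ω)) := by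
      ext τ
      simp only [Set.mem_ofPred_eq, Set.mem_preimage, SetLike.mem_coe, MulAction.mem_stabilizer_iff,
        AlgEquiv.smul_def, AlgEquiv.mul_apply]
      constructor
      · intro h
        rw [h, ← AlgEquiv.mul_apply, inv_mul_cancel, AlgEquiv.one_apply]
      · intro h
        calc τ (x p) = σ (σ⁻¹ (τ (x p))) := by
              rw [← AlgEquiv.mul_apply, mul_inv_cancel, AlgEquiv.one_apply]
          _ = σ (x p) := by rw [h]
    rw [h1]
    exact (stabilizer_isOpen_of_isIntegral (K := F) (x p)).preimage (continuous_const_mul σ⁻¹)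
  refine Filter.mem_of_superset (hopen.mem_nhds ?_) ?_
  · simp
  · intro τ hτ hcon
    simp only [Set.mem_iInter, Set.mem_ofPred_eq] at hτ
    have h2 := hcon P
    have h3 : ∑ p ∈ P, (moved x τ).indicator w p = ∑ p ∈ P, (moved x σ).indicator w p := by
      refine Finset.sum_congr rfl fun p hp => ?_
      simp only [Set.indicator_apply, moved, Set.mem_ofPred_eq, hτ p hp]
    rw [h3] at h2
    exact absurd h2 (not_le.mpr hP)

/-- Averaging: if every element of `U` moves a set of weight at most `c`, then the weight of any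
finite set of points none of which is fixed by the whole of `U` is at most `2 * c`. -/
private theorem average {ι F Ω : Type*} [Field F] [Field Ω] [Algebra F Ω]
    [Algebra.IsIntegral F Ω] (x : ι → Ω) (w : ι → ℝ) (hw : ∀ p, 0 ≤ w p) (c : ℝ)
    (U : Subgroup (Ω ≃ₐ[F] Ω)) (hU : ∀ σ ∈ U, WLe w (moved x σ) c) (P : Finset ι)
    (hP : ∀ p ∈ P, ∃ σ ∈ U, σ (x p) ≠ x p) : ∑ p ∈ P, w p ≤ 2 * c := by
  classical
  -- the orbit of the family of the points of `P`
  set T : Set (P → Ω) := {t | ∃ σ ∈ U, ∀ p : P, t p = σ (x p)} with hT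
  have hfin : T.Finite := by
    have h1 : (Set.pi Set.univ fun p : P => (minpoly F (x p)).rootSet Ω).Finite :=
      Set.Finite.pi fun p : P => (minpoly F (x p)).rootSet_finite Ω
    refine h1.subset ?_
    rintro t ⟨σ, _, hσ⟩ p _
    have hint : IsIntegral F (x p) := Algebra.IsIntegral.isIntegral _
    rw [Polynomial.mem_rootSet]
    refine ⟨minpoly.ne_zero hint, ?_⟩
    rw [hσ p]
    have h2 := minpoly.aeval F (x p)
    have h3 := congrArg σ h2
    rw [map_zero, ← AlgEquiv.coe_toAlgHom, ← Polynomial.aeval_algHom_apply] at h3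
    exact h3
  set S : Finset (P → Ω) := hfin.toFinset with hS
  have hmemS : ∀ t, t ∈ S ↔ ∃ σ ∈ U, ∀ p : P, t p = σ (x p) := by
    intro t
    rw [hS, Set.Finite.mem_toFinset]
    rfl
  have hSne : S.Nonempty := ⟨fun p => x p, (hmemS _).mpr ⟨1, U.one_mem, fun p => rfl⟩⟩
  -- at most half of the orbit fixes a given point
  have hhalf : ∀ p : P, S.card ≤ 2 * (S.filter fun t => t p ≠ x p).card := by
    intro p
    obtain ⟨τ, hτU, hτ⟩ := hP p p.2
    have h1 : (S.filter fun t => ¬ (t p ≠ x p)).card ≤ (S.filter fun t => t p ≠ x p).card := by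
      refine Finset.card_le_card_of_injOn (fun t q => τ (t q)) ?_ ?_
      · intro t ht
        rw [Finset.mem_coe, Finset.mem_filter, not_not] at ht
        rw [Finset.mem_coe, Finset.mem_filter]
        obtain ⟨σ, hσU, hσ⟩ := (hmemS t).mp ht.1
        refine ⟨(hmemS _).mpr ⟨τ * σ, U.mul_mem hτU hσU, fun q => ?_⟩, ?_⟩
        · simp only [AlgEquiv.mul_apply, hσ q]
        · simp only [ht.2]
          exact hτ
      · intro t _ t' _ htt'
        funext q
        exact τ.injective (congrFun htt' q)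
    have h2 := Finset.card_filter_add_card_filter_not (s := S) (fun t => t p ≠ x p)
    omega
  -- the average
  have hsum : ∑ t ∈ S, (∑ p : P, w p) / 2 ≤ ∑ t ∈ S, ∑ p : P, if t p ≠ x p then w p else 0 := by
    rw [Finset.sum_comm, Finset.sum_const, nsmul_eq_mul, Finset.sum_div, Finset.mul_sum]
    refine Finset.sum_le_sum fun p _ => ?_
    rw [← Finset.sum_filter, Finset.sum_const, nsmul_eq_mul]
    have h1 : (S.card : ℝ) ≤ 2 * ((S.filter fun t => t p ≠ x p).card : ℝ) := by
      exact_mod_cast hhalf p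
    have h2 := mul_le_mul_of_nonneg_right h1 (hw p)
    linarith
  obtain ⟨t, htS, ht⟩ := Finset.exists_le_of_sum_le hSne hsum
  obtain ⟨σ, hσU, hσ⟩ := (hmemS t).mp htS
  have h3 : (∑ p : P, if t p ≠ x p then w p else 0) ≤ c := by
    have h4 := hU σ hσU P
    rw [← Finset.sum_coe_sort] at h4
    refine le_trans (le_of_eq ?_) h4
    refine Finset.sum_congr rfl fun p _ => ?_
    rw [Set.indicator_apply, hσ p]
    by_cases hq : σ (x p) = x p
    · simp [moved, hq]
    · simp [moved, hq]
  have h5 : ∑ p : P, w p = ∑ p ∈ P, w p := Finset.sum_coe_sort P w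
  rw [h5] at ht
  linarith

/-- Let the Galois group `G` of `Ω/F` act on a family `x p` with weights `w p ≥ 0`. If among any
`D + 1` elements of `G` two coincide on `x` up to a set of finite weight, then all `x p`, up to a
set of finite weight, lie in one finite extension `E` of `F`.

Proof. H = {σ | the weight of {p | σ (x p) ≠ x p} is finite} is a subgroup of finite index (at most
D cosets). S n = {σ | for all finite sets P, the sum of w p over p in P with σ (x p) ≠ x p is at most
n} is closed in the Krull topology, H is the union of the S n, G is the union of countably many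
closed sets g S n (g runs through finitely many representatives), G is compact and Hausdorff, hence
a Baire space (`nonempty_interior_of_iUnion_of_closed`), so some g S n has an interior point, and
then there is an open neighbourhood of 1 inside S (2 n) (σ⁻¹ and products: weights of moved sets are
subadditive). `krullTopology_mem_nhds_one_iff_of_isGalois` (or `krullTopology_mem_nhds_one_iff`):
E finite over F with E.fixingSubgroup ⊆ S (2 n). Finally the weight of {p | x p ∉ E} is at most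
4 n: for a finite set P of such p, no x p is fixed by U = E.fixingSubgroup
(`InfiniteGalois.fixedField_fixingSubgroup`); averaging over the finite image of U in the
permutations of the (finite) orbits of the x p, p in P, some σ in U moves at least half of the
weight of P (each stabiliser is a proper subgroup, so it has at most half of the elements). -/
theorem galois_piece {ι F Ω : Type*} [Field F] [Field Ω] [Algebra F Ω] [IsGalois F Ω]
    (x : ι → Ω) (w : ι → ℝ) (hw : ∀ p, 0 ≤ w p) (D : ℕ)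
    (h : ∀ σ : Fin (D + 1) → (Ω ≃ₐ[F] Ω), ∃ i j, i ≠ j ∧
      Summable ({p | σ i (x p) ≠ σ j (x p)}.indicator w)) :
    ∃ E : IntermediateField F Ω, FiniteDimensional F E ∧ Summable ({p | x p ∉ E}.indicator w) := by
  classical
  have hint : Algebra.IsIntegral F Ω := inferInstance
  -- finitely many representatives
  obtain ⟨R, hR⟩ : ∃ R : Finset (Ω ≃ₐ[F] Ω), ∀ σ, ∃ g ∈ R, ∃ n : ℕ,
      WLe w (moved x (g⁻¹ * σ)) n := by
    by_contra hcon
    push Not at hcon
    obtain ⟨f, -, hf⟩ := exists_seq_of_forall_finset_exists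
      (P := fun _ : Ω ≃ₐ[F] Ω => True)
      (r := fun g σ : Ω ≃ₐ[F] Ω => ∀ n : ℕ, ¬ WLe w (moved x (g⁻¹ * σ)) n)
      (fun s _ => by
        obtain ⟨σ, hσ⟩ := hcon s
        exact ⟨σ, trivial, fun g hg n => hσ g hg n⟩)
    obtain ⟨i, j, hij, hsum⟩ := h fun i => f i
    obtain ⟨n, hn⟩ := exists_wle hw hsum
    rcases lt_or_gt_of_ne hij with hlt | hlt
    · apply hf i j hlt n
      rw [moved_inv_mul]
      exact hn
    · apply hf j i hlt n
      rw [moved_inv_mul]
      convert hn using 2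
      ext p
      exact ne_comm
  -- Baire
  have hbaire : ∃ q : R × ℕ, (interior {σ : Ω ≃ₐ[F] Ω |
      WLe w (moved x ((q.1 : Ω ≃ₐ[F] Ω)⁻¹ * σ)) q.2}).Nonempty := by
    have : T2Space (Ω ≃ₐ[F] Ω) := krullTopology_t2
    refine nonempty_interior_of_iUnion_of_closed (fun q => ?_) ?_
    · exact (isClosed_wle x w (q.2 : ℝ)).preimage
        (continuous_const_mul (q.1 : Ω ≃ₐ[F] Ω)⁻¹)
    · rw [Set.eq_univ_iff_forall]
      intro σ
      obtain ⟨g, hg, n, hn⟩ := hR σ
      exact Set.mem_iUnion.mpr ⟨(⟨g, hg⟩, n), hn⟩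
  obtain ⟨⟨g, n⟩, σ₀, hσ₀⟩ := hbaire
  set g' : Ω ≃ₐ[F] Ω := (g : Ω ≃ₐ[F] Ω) with hg'
  set V : Set (Ω ≃ₐ[F] Ω) := (fun τ => σ₀ * τ) ⁻¹'
    interior {σ : Ω ≃ₐ[F] Ω | WLe w (moved x (g'⁻¹ * σ)) n} with hV
  have hVopen : IsOpen V := isOpen_interior.preimage (continuous_const_mul σ₀)
  have hV1 : (1 : Ω ≃ₐ[F] Ω) ∈ V := by
    rw [hV, Set.mem_preimage, mul_one]
    exact hσ₀
  obtain ⟨E, hEfin, hEV⟩ := (krullTopology_mem_nhds_one_iff F Ω V).mp (hVopen.mem_nhds hV1)
  have hE : ∀ τ ∈ E.fixingSubgroup, WLe w (moved x τ) (n + n : ℝ) := by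
    intro τ hτ
    have h1 : WLe w (moved x (g'⁻¹ * (σ₀ * τ))) n := interior_subset (hEV hτ)
    have h2 : WLe w (moved x (g'⁻¹ * σ₀)) n := interior_subset hσ₀
    have h3 : τ = (g'⁻¹ * σ₀)⁻¹ * (g'⁻¹ * (σ₀ * τ)) := by group
    rw [h3]
    refine wle_mono hw (moved_mul x _ _) (wle_union hw ?_ h1)
    rw [moved_inv]
    exact h2
  refine ⟨E, hEfin, summable_of_wle hw (c := 2 * (n + n : ℝ)) fun P => ?_⟩
  have h4 : ∑ p ∈ P, ({p | x p ∉ E} : Set ι).indicator w p
      = ∑ p ∈ P.filter (fun p => x p ∉ E), w p := by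
    rw [Finset.sum_filter]
    refine Finset.sum_congr rfl fun p _ => ?_
    rw [Set.indicator_apply]
    rfl
  rw [h4]
  refine average x w hw _ E.fixingSubgroup hE _ fun p hp => ?_
  rw [Finset.mem_filter] at hp
  by_contra hcon
  push Not at hcon
  apply hp.2
  rw [← InfiniteGalois.fixedField_fixingSubgroup E, IntermediateField.mem_fixedField_iff]
  exact hcon

end Pool.Agent.LogAll
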