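import Pool.Agent.Lib_MP_1eadae_la.NloD
import Pool.Agent.Lib_MP_1eadae_la.GalE

/-!
# Piece F1: bounded degree on a set of positive mean gives one finite extension
-/

set_option autoImplicit false

namespace Pool.Agent.LogAll

open Filter Topology Polynomial Pool.Agent.LogRel

theorem IsMean.empty {μ : Set ℕ → ℝ} (hμ : IsMean μ) : μ ∅ = 0 := by
  have := hμ.add ∅ ∅ disjoint_bot_left
  rw [Set.union_empty] at this
  linarith

theorem IsMean.union_le {μ : Set ℕ → ℝ} (hμ : IsMean μ) (A B : Set ℕ) : μ (A ∪ B) ≤ μ A + μ B := by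
  have h1 : μ (A ∪ (B \ A)) = μ A + μ (B \ A) := hμ.add _ _ disjoint_sdiff_self_right
  rw [Set.union_sdiff_self] at h1
  have h2 := hμ.mono (B \ A) B Set.sdiff_subset
  linarith

theorem IsMean.le_diff {μ : Set ℕ → ℝ} (hμ : IsMean μ) (A B : Set ℕ) : μ A ≤ μ (A \ B) + μ B := by
  have h1 := hμ.union_le (A \ B) B
  have h2 := hμ.mono A ((A \ B) ∪ B) (by rw [Set.sdiff_union_self]; exact Set.subset_union_left)
  linarith

theorem IsMean.biUnion_null {μ : Set ℕ → ℝ} (hμ : IsMean μ) {ι : Type*} (s : Finset ι)
    (A : ι → Set ℕ) (h : ∀ i ∈ s, μ (A i) = 0) : μ (⋃ i ∈ s, A i) = 0 := by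
  classical
  induction s using Finset.induction_on with
  | empty => simpa using hμ.empty
  | insert i s his ih =>
    rw [Finset.set_biUnion_insert]
    have h1 := hμ.union_le (A i) (⋃ j ∈ s, A j)
    rw [h i (Finset.mem_insert_self _ _), ih fun j hj => h j (Finset.mem_insert_of_mem hj)] at h1
    have h2 := hμ.nonneg (A i ∪ ⋃ j ∈ s, A j)
    linarith

/-- a subfield as a rational vector space -/
def qsub (S : Subfield ℂ) : Submodule ℚ ℂ where
  carrier := S
  add_mem' := S.add_mem
  zero_mem' := S.zero_mem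
  smul_mem' := fun q z hz => by
    rw [Rat.smul_def]
    exact S.mul_mem (SubfieldClass.ratCast_mem S q) hz

theorem mem_qsub {S : Subfield ℂ} {z : ℂ} : z ∈ qsub S ↔ z ∈ S := Iff.rfl

theorem small_of_submodule (μ : Set ℕ → ℝ) (hμ : IsMean μ) (H : Submodule ℚ ℂ) (B : Set ℕ)
    (hB : ∀ a ∈ B, 0 < a ∧ Complex.log (a : ℂ) ∈ H) (hpos : 0 < μ B) :
    Small {p : ℕ | Complex.log (p : ℂ) ∉ H} := by
  have h1 : 0 < μ {a : ℕ | 0 < a ∧ H.mkQ (Complex.log (a : ℂ)) = 0} := by
    refine lt_of_lt_of_le hpos (hμ.mono _ _ ?_)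
    intro a ha
    obtain ⟨h1, h2⟩ := hB a ha
    exact ⟨h1, by simpa using h2⟩
  have h2 := nlo μ hμ H.mkQ 0 h1
  refine h2.mono ?_
  intro p hp
  simpa using hp

theorem exists_ext (μ : Set ℕ → ℝ) (hμ : IsMean μ) (F : IntermediateField Qb ℂ) (D : ℕ)
    (B : Set ℕ) (hpos : 0 < μ B)
    (hB : ∀ a ∈ B, 0 < a ∧ ∃ P : F[X], P ≠ 0 ∧ P.natDegree ≤ D ∧
      aeval (Complex.log (a : ℂ)) P = 0) :
    ∃ E : IntermediateField F ℂ, FiniteDimensional F E ∧
      Small {p : ℕ | Complex.log (p : ℂ) ∉ E} := by
  classical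
  have hΩ : ∀ a ∈ B, Complex.log (a : ℂ) ∈ algebraicClosure F ℂ := by
    intro a ha
    obtain ⟨_, P, hP, _, hP2⟩ := hB a ha
    exact mem_algebraicClosure_iff.2 ⟨P, hP, hP2⟩
  have hS0 : Small {p : ℕ | Complex.log (p : ℂ) ∉ qsub (algebraicClosure F ℂ).toSubfield} :=
    small_of_submodule μ hμ _ B (fun a ha => ⟨(hB a ha).1, hΩ a ha⟩) hpos
  have : IsGalois F (algebraicClosure F ℂ) := by
    have : Normal F (algebraicClosure F ℂ) := IsAlgClosure.normal F _
    exact {}
  let x : ℕ → algebraicClosure F ℂ := fun p =>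
    if h : Complex.log (p : ℂ) ∈ algebraicClosure F ℂ then ⟨_, h⟩ else 0
  let w : ℕ → ℝ := fun p => if p.Prime then (1 : ℝ) / p else 0
  have hw : ∀ p, 0 ≤ w p := by
    intro p
    by_cases hp : p.Prime
    · simp only [w, if_pos hp]; positivity
    · simp only [w, if_neg hp]; exact le_rfl
  have key : ∀ σ : Fin (D + 1) → (algebraicClosure F ℂ ≃ₐ[F] algebraicClosure F ℂ),
      ∃ i j, i ≠ j ∧ Summable ({p | σ i (x p) ≠ σ j (x p)}.indicator w) := by
    intro σ
    by_contra hcon
    push Not at hcon
    have hφ : ∀ i j : Fin (D + 1), ∃ φ : ℂ →ₗ[ℚ] ℂ,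
        ∀ z : algebraicClosure F ℂ, φ (z : ℂ) = (σ i z : ℂ) - (σ j z : ℂ) := by
      intro i j
      let g0 : (qsub (algebraicClosure F ℂ).toSubfield) →+ ℂ :=
        { toFun := fun z => ((σ i ⟨z.1, z.2⟩ : algebraicClosure F ℂ) : ℂ) -
            ((σ j ⟨z.1, z.2⟩ : algebraicClosure F ℂ) : ℂ)
          map_zero' := by
            have : (⟨0, (algebraicClosure F ℂ).zero_mem⟩ : algebraicClosure F ℂ) = 0 := rfl
            simp only [ZeroMemClass.coe_zero]
            rw [this]
            simp
          map_add' := by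
            intro y z
            have : (⟨((y + z : qsub (algebraicClosure F ℂ).toSubfield) : ℂ), (y + z).2⟩ :
                algebraicClosure F ℂ) = ⟨y.1, y.2⟩ + ⟨z.1, z.2⟩ := rfl
            rw [this, map_add, map_add]
            push_cast
            ring }
      obtain ⟨φ, hφ⟩ := LinearMap.exists_extend (g0.toRatLinearMap)
      refine ⟨φ, fun z => ?_⟩
      have := LinearMap.congr_fun hφ (⟨z.1, z.2⟩ : qsub (algebraicClosure F ℂ).toSubfield)
      exact this
    choose φ hφ using hφ
    have hnull : ∀ i j : Fin (D + 1), i ≠ j →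
        μ {a : ℕ | 0 < a ∧ φ i j (Complex.log (a : ℂ)) = 0} = 0 := by
      intro i j hij
      by_contra hne
      have hpos' : 0 < μ {a : ℕ | 0 < a ∧ φ i j (Complex.log (a : ℂ)) = 0} :=
        lt_of_le_of_ne (hμ.nonneg _) (Ne.symm hne)
      have h1 := nlo μ hμ (φ i j) 0 hpos'
      refine hcon i j hij ?_
      unfold Small at h1
      refine Summable.of_nonneg_of_le (fun p => Set.indicator_nonneg (fun p _ => hw p) p)
        (fun p => ?_) h1
      by_cases hp : p ∈ {p | σ i (x p) ≠ σ j (x p)}
      · rw [Set.indicator_of_mem hp]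
        by_cases hpr : p.Prime
        · have hmem : p ∈ {p : ℕ | p.Prime ∧ p ∈ {p : ℕ | φ i j (Complex.log (p : ℂ)) ≠ 0}} := by
            refine ⟨hpr, ?_⟩
            by_cases hlog : Complex.log (p : ℂ) ∈ algebraicClosure F ℂ
            · have hx : x p = ⟨_, hlog⟩ := dif_pos hlog
              have h2 := hφ i j (x p)
              have h3 : ((x p : algebraicClosure F ℂ) : ℂ) = Complex.log (p : ℂ) := by rw [hx]
              rw [h3] at h2
              change φ i j (Complex.log (p : ℂ)) ≠ 0
              rw [h2]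
              intro h4
              exact hp (Subtype.ext (sub_eq_zero.1 h4))
            · have hx : x p = 0 := dif_neg hlog
              exfalso
              apply hp
              rw [hx]
              simp
          rw [Set.indicator_of_mem hmem]
          simp only [w, if_pos hpr]
          exact le_rfl
        · simp only [w, if_neg hpr]
          exact Set.indicator_nonneg (fun p _ => by positivity) p
      · rw [Set.indicator_of_notMem hp]
        exact Set.indicator_nonneg (fun p _ => by positivity) p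
    let s : Finset (Fin (D + 1) × Fin (D + 1)) := Finset.univ.filter fun t => t.1 ≠ t.2
    let A : Fin (D + 1) × Fin (D + 1) → Set ℕ := fun t =>
      {a : ℕ | 0 < a ∧ φ t.1 t.2 (Complex.log (a : ℂ)) = 0}
    have hN : μ (⋃ t ∈ s, A t) = 0 := by
      refine hμ.biUnion_null s A fun t ht => ?_
      have ht' : t.1 ≠ t.2 := by simpa [s] using ht
      exact hnull _ _ ht'
    have hdiff : 0 < μ (B \ ⋃ t ∈ s, A t) := by
      have := hμ.le_diff B (⋃ t ∈ s, A t)
      linarith
    have hne : (B \ ⋃ t ∈ s, A t).Nonempty := by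
      rw [Set.nonempty_iff_ne_empty]
      intro h
      rw [h, hμ.empty] at hdiff
      exact lt_irrefl _ hdiff
    obtain ⟨a, haB, haN⟩ := hne
    obtain ⟨ha0, P, hP, hPD, hPa⟩ := hB a haB
    let y : algebraicClosure F ℂ := ⟨_, hΩ a haB⟩
    have hPy : aeval y P = 0 := by
      have h1 : aeval ((algebraicClosure F ℂ).val y) P = (algebraicClosure F ℂ).val (aeval y P) :=
        Polynomial.aeval_algHom_apply _ _ _
      have h2 : (algebraicClosure F ℂ).val (aeval y P) = 0 := by
        rw [← h1]; exact hPa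
      exact (map_eq_zero _).1 h2
    have hroot : ∀ i, aeval (σ i y) P = 0 := by
      intro i
      have h1 : aeval ((σ i).toAlgHom y) P = (σ i).toAlgHom (aeval y P) :=
        Polynomial.aeval_algHom_apply _ _ _
      rw [hPy, map_zero] at h1
      exact h1
    have hinj : Function.Injective fun i => σ i y := by
      intro i j hij
      by_contra hne
      apply haN
      have hmem : ((i, j) : Fin (D + 1) × Fin (D + 1)) ∈ s := by simp [s, hne]
      refine Set.mem_biUnion hmem ?_
      refine ⟨ha0, ?_⟩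
      have := hφ i j y
      change φ i j (Complex.log (a : ℂ)) = 0
      change φ i j (Complex.log (a : ℂ)) = _ at this
      rw [this]
      have hij' : σ i y = σ j y := hij
      rw [hij', sub_self]
    have hcard : D + 1 ≤ (P.aroots (algebraicClosure F ℂ)).toFinset.card := by
      have h1 : (Finset.univ.image fun i => σ i y) ⊆
          (P.aroots (algebraicClosure F ℂ)).toFinset := by
        intro z hz
        rw [Finset.mem_image] at hz
        obtain ⟨i, _, rfl⟩ := hz
        rw [Multiset.mem_toFinset, Polynomial.mem_aroots]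
        exact ⟨hP, hroot i⟩
      have h2 := Finset.card_le_card h1
      rw [Finset.card_image_of_injective _ hinj, Finset.card_univ, Fintype.card_fin] at h2
      exact h2
    have hcard2 : (P.aroots (algebraicClosure F ℂ)).toFinset.card ≤ D := by
      refine le_trans (Multiset.toFinset_card_le _) ?_
      refine le_trans (Polynomial.card_roots' _) ?_
      rw [Polynomial.natDegree_map]
      exact hPD
    omega
  obtain ⟨E, hE, hsum⟩ := galois_piece x w hw D key
  refine ⟨E.map (algebraicClosure F ℂ).val, ?_, ?_⟩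
  · have e : E ≃ₐ[F] E.map (algebraicClosure F ℂ).val := IntermediateField.equivMap E _
    exact LinearEquiv.finiteDimensional e.toLinearEquiv
  · have h2 : Small {p : ℕ | x p ∉ E} := by
      unfold Small
      refine Summable.of_nonneg_of_le (fun p => Set.indicator_nonneg (fun p _ => by positivity) p)
        (fun p => ?_) hsum
      by_cases hp : p ∈ {p : ℕ | p.Prime ∧ p ∈ {p : ℕ | x p ∉ E}}
      · rw [Set.indicator_of_mem hp, Set.indicator_of_mem hp.2]
        simp only [w, if_pos hp.1]
        exact le_rfl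
      · rw [Set.indicator_of_notMem hp]
        exact Set.indicator_nonneg (fun p _ => hw p) p
    refine (hS0.union h2).mono ?_
    intro p hp
    by_cases hlog : Complex.log (p : ℂ) ∈ algebraicClosure F ℂ
    · refine Or.inr ?_
      intro hxE
      apply hp
      have hx : x p = ⟨_, hlog⟩ := dif_pos hlog
      exact ⟨x p, hxE, by rw [hx]; rfl⟩
    · exact Or.inl hlog

end Pool.Agent.LogAll
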