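import Mathlib

/-!
# Logarithms of positive integers
-/

set_option autoImplicit false

namespace Pool.Agent.LogAll

theorem clog_eq (a : ℕ) : Complex.log a = ((Real.log a : ℝ) : ℂ) := by
  rw [Complex.ofReal_log (Nat.cast_nonneg a)]
  simp

theorem clog_mul {a b : ℕ} (ha : 0 < a) (hb : 0 < b) :
    Complex.log ((a * b : ℕ) : ℂ) = Complex.log a + Complex.log b := by
  rw [clog_eq, clog_eq, clog_eq, ← Complex.ofReal_add, Nat.cast_mul, Real.log_mul]
  · exact_mod_cast ha.ne'
  · exact_mod_cast hb.ne'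

theorem clog_one : Complex.log ((1 : ℕ) : ℂ) = 0 := by simp

theorem exp_clog {a : ℕ} (ha : 0 < a) : Complex.exp (Complex.log a) = a :=
  Complex.exp_log (by exact_mod_cast ha.ne')

theorem isAlgebraic_exp_clog {a : ℕ} (ha : 0 < a) : IsAlgebraic ℚ (Complex.exp (Complex.log a)) := by
  rw [exp_clog ha]
  have h := isAlgebraic_algebraMap (R := ℚ) (A := ℂ) (a : ℚ)
  simpa using h

/-- the logarithms of the primes are linearly independent over `ℤ` -/
theorem linInd_int : LinearIndependent ℤ (fun p : Nat.Primes => Complex.log ((p : ℕ) : ℂ)) := by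
  rw [linearIndependent_iff']
  intro s c hc p hp
  have h1 : ∑ p ∈ s, (c p : ℝ) * Real.log ((p : ℕ) : ℝ) = 0 := by
    have : ((∑ p ∈ s, (c p : ℝ) * Real.log ((p : ℕ) : ℝ) : ℝ) : ℂ) = 0 := by
      rw [← hc]
      push_cast
      refine Finset.sum_congr rfl fun p _ => ?_
      rw [zsmul_eq_mul]
    exact_mod_cast this
  let A : ℕ := ∏ p ∈ s, (p : ℕ) ^ (c p).toNat
  let B : ℕ := ∏ p ∈ s, (p : ℕ) ^ (-c p).toNat
  have hpne : ∀ p : Nat.Primes, ((p : ℕ) : ℝ) ≠ 0 := fun p => by exact_mod_cast p.2.ne_zero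
  have hA : Real.log (A : ℝ) = ∑ p ∈ s, ((c p).toNat : ℝ) * Real.log ((p : ℕ) : ℝ) := by
    change Real.log ((∏ p ∈ s, (p : ℕ) ^ (c p).toNat : ℕ) : ℝ) = _
    rw [Nat.cast_prod, Real.log_prod (fun p _ => by rw [Nat.cast_pow]; exact pow_ne_zero _ (hpne p))]
    refine Finset.sum_congr rfl fun p _ => ?_
    rw [Nat.cast_pow, Real.log_pow]
  have hB : Real.log (B : ℝ) = ∑ p ∈ s, ((-c p).toNat : ℝ) * Real.log ((p : ℕ) : ℝ) := by
    change Real.log ((∏ p ∈ s, (p : ℕ) ^ (-c p).toNat : ℕ) : ℝ) = _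
    rw [Nat.cast_prod, Real.log_prod (fun p _ => by rw [Nat.cast_pow]; exact pow_ne_zero _ (hpne p))]
    refine Finset.sum_congr rfl fun p _ => ?_
    rw [Nat.cast_pow, Real.log_pow]
  have hA0 : A ≠ 0 := Finset.prod_ne_zero_iff.2 fun p _ => pow_ne_zero _ p.2.ne_zero
  have hB0 : B ≠ 0 := Finset.prod_ne_zero_iff.2 fun p _ => pow_ne_zero _ p.2.ne_zero
  have hAB : A = B := by
    have h2 : Real.log (A : ℝ) = Real.log (B : ℝ) := by
      rw [← sub_eq_zero, hA, hB, ← Finset.sum_sub_distrib, ← h1]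
      refine Finset.sum_congr rfl fun p _ => ?_
      rw [← sub_mul]
      congr 1
      have h3 : ((c p).toNat : ℤ) - ((-c p).toNat : ℤ) = c p := by omega
      exact_mod_cast h3
    have hA1 : (0 : ℝ) < A := by exact_mod_cast Nat.pos_of_ne_zero hA0
    have hB1 : (0 : ℝ) < B := by exact_mod_cast Nat.pos_of_ne_zero hB0
    have h4 := Real.log_injOn_pos hA1 hB1 h2
    exact_mod_cast h4
  have key : ∀ e : Nat.Primes → ℕ, (∏ q ∈ s, (q : ℕ) ^ e q).factorization (p : ℕ) = e p := by
    intro e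
    rw [Nat.factorization_prod (fun q _ => pow_ne_zero _ q.2.ne_zero), Finset.sum_apply',
      Finset.sum_eq_single p]
    · rw [Nat.Prime.factorization_pow p.2]
      simp
    · intro q _ hq
      rw [Nat.Prime.factorization_pow q.2]
      have : (q : ℕ) ≠ (p : ℕ) := fun h => hq (Subtype.ext h)
      simp [this]
    · intro h; exact absurd hp h
  have h5 := key fun q => (c q).toNat
  have h6 := key fun q => (-c q).toNat
  have h7 : (c p).toNat = (-c p).toNat := by
    rw [← h5, ← h6]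
    exact congrArg (fun n : ℕ => n.factorization (p : ℕ)) hAB
  omega

/-- the logarithms of the primes are linearly independent over `ℚ` -/
theorem linInd_log : LinearIndependent ℚ (fun p : Nat.Primes => Complex.log ((p : ℕ) : ℂ)) :=
  (LinearIndependent.iff_fractionRing ℤ ℚ).1 linInd_int

/-- a finite dimensional `ℚ`-space contains the logarithms of finitely many primes only -/
theorem finite_primes (H : Submodule ℚ ℂ) (hH : FiniteDimensional ℚ H) :
    {p : ℕ | p.Prime ∧ Complex.log (p : ℂ) ∈ H}.Finite := by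
  have h1 : {q : Nat.Primes | Complex.log ((q : ℕ) : ℂ) ∈ H}.Finite := by
    let v : {q : Nat.Primes | Complex.log ((q : ℕ) : ℂ) ∈ H} → H := fun q => ⟨_, q.2⟩
    have hv : LinearIndependent ℚ v := by
      have h2 : LinearIndependent ℚ (H.subtype ∘ v) := by
        have := linInd_log.comp (fun q : {q : Nat.Primes | Complex.log ((q : ℕ) : ℂ) ∈ H} =>
          (q : Nat.Primes)) Subtype.val_injective
        exact this
      exact h2.of_comp
    have := hv.finite
    exact Set.toFinite _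
  have h2 : {p : ℕ | p.Prime ∧ Complex.log (p : ℂ) ∈ H} ⊆
      (fun q : Nat.Primes => (q : ℕ)) '' {q : Nat.Primes | Complex.log ((q : ℕ) : ℂ) ∈ H} := by
    rintro p ⟨hp, hpH⟩
    exact ⟨⟨p, hp⟩, hpH, rfl⟩
  exact (h1.image _).subset h2

end Pool.Agent.LogAll
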