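import Pool.Agent.Lib_MP_1eadae_la.Defs

/-!
# Piece C: existence of a mean
-/

set_option autoImplicit false

namespace Pool.Agent.LogAll

open Filter Topology

/-! ### elementary bounds -/

private noncomputable def hs (x : ℕ) : ℝ := ∑ a ∈ Finset.Icc 1 x, (1 : ℝ) / a

private theorem hs_eq (x : ℕ) : hs x = ((harmonic x : ℚ) : ℝ) := by
  unfold hs
  rw [harmonic_eq_sum_Icc]
  push_cast
  exact Finset.sum_congr rfl fun a _ => one_div _

private theorem hs_le (x : ℕ) : hs x ≤ 1 + Real.log x := by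
  rw [hs_eq]; exact harmonic_le_one_add_log x

private theorem le_hs (x : ℕ) : Real.log (x + 1) ≤ hs x := by
  rw [hs_eq]
  have := log_add_one_le_harmonic x
  exact_mod_cast this

private theorem hs_nonneg (x : ℕ) : 0 ≤ hs x :=
  Finset.sum_nonneg fun a _ => by positivity

/-- the numerator of `LD` -/
private noncomputable def SA (A : Set ℕ) (x : ℕ) : ℝ :=
  ∑ a ∈ Finset.Icc 1 x, A.indicator (fun a : ℕ => (1 : ℝ) / a) a

private theorem LD_eq (A : Set ℕ) (x : ℕ) : LD A x = SA A x / Real.log x := rfl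

private theorem ind_nonneg (A : Set ℕ) (a : ℕ) : 0 ≤ A.indicator (fun a : ℕ => (1 : ℝ) / a) a :=
  Set.indicator_nonneg (fun _ _ => by positivity) a

private theorem SA_nonneg (A : Set ℕ) (x : ℕ) : 0 ≤ SA A x :=
  Finset.sum_nonneg fun a _ => ind_nonneg A a

private theorem SA_mono {A B : Set ℕ} (h : A ⊆ B) (x : ℕ) : SA A x ≤ SA B x :=
  Finset.sum_le_sum fun a _ => Set.indicator_le_indicator_of_subset h (fun _ => by positivity) a

private theorem SA_univ (x : ℕ) : SA Set.univ x = hs x := by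
  unfold SA hs
  exact Finset.sum_congr rfl fun a _ => Set.indicator_of_mem (Set.mem_univ a) _

private theorem SA_le (A : Set ℕ) (x : ℕ) : SA A x ≤ 1 + Real.log x :=
  (SA_mono (Set.subset_univ A) x).trans ((SA_univ x).le.trans (hs_le x))

private theorem log_tend : Tendsto (fun x : ℕ => Real.log x) atTop atTop :=
  Real.tendsto_log_atTop.comp tendsto_natCast_atTop_atTop

private theorem one_div_log_tend (C : ℝ) : Tendsto (fun x : ℕ => C / Real.log x) atTop (𝓝 0) :=
  log_tend.const_div_atTop C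

private theorem LD_univ_tend : Tendsto (LD Set.univ) atTop (𝓝 1) := by
  have h1 : Tendsto (fun x : ℕ => 1 + 1 / Real.log x) atTop (𝓝 1) := by
    simpa using (one_div_log_tend 1).const_add 1
  refine tendsto_of_tendsto_of_tendsto_of_le_of_le' tendsto_const_nhds h1 ?_ ?_
  · filter_upwards [eventually_ge_atTop 2] with x hx
    have hl : 0 < Real.log x := Real.log_pos (by exact_mod_cast hx)
    rw [LD_eq, SA_univ, le_div_iff₀ hl, one_mul]
    refine le_trans ?_ (le_hs x)
    refine Real.log_le_log (by positivity) (by linarith)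
  · filter_upwards [eventually_ge_atTop 2] with x hx
    have hl : 0 < Real.log x := Real.log_pos (by exact_mod_cast hx)
    rw [LD_eq, SA_univ, div_le_iff₀ hl, add_mul, one_div, inv_mul_cancel₀ hl.ne']
    linarith [hs_le x]

private theorem LD_mem (A : Set ℕ) {x : ℕ} (hx : 3 ≤ x) : LD A x ∈ Set.Icc (0 : ℝ) 2 := by
  have h1 : (1 : ℝ) ≤ Real.log x := by
    have h3 : Real.exp 1 ≤ x := by
      have := Real.exp_one_lt_d9
      have h4 : (3 : ℝ) ≤ x := by exact_mod_cast hx
      linarith
    have := Real.log_le_log (Real.exp_pos 1) h3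
    rwa [Real.log_exp] at this
  constructor
  · exact div_nonneg (SA_nonneg A x) (by linarith)
  · rw [LD_eq, div_le_iff₀ (by linarith)]
    linarith [SA_le A x]

/-! ### the functional of a function -/

private noncomputable def EF (f : ℕ → ℝ) (x : ℕ) : ℝ :=
  (∑ a ∈ Finset.Icc 1 x, f a * (1 / a)) / Real.log x

open scoped Classical in
private noncomputable def one (A : Set ℕ) (a : ℕ) : ℝ := if a ∈ A then 1 else 0

private theorem LD_EF (A : Set ℕ) (x : ℕ) : LD A x = EF (one A) x := by
  unfold LD EF one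
  congr 1
  refine Finset.sum_congr rfl fun a _ => ?_
  by_cases h : a ∈ A
  · rw [Set.indicator_of_mem h, if_pos h, one_mul]
  · rw [Set.indicator_of_notMem h, if_neg h, zero_mul]

private theorem EF_add (f g : ℕ → ℝ) (x : ℕ) : EF (fun a => f a + g a) x = EF f x + EF g x := by
  unfold EF
  rw [← add_div, ← Finset.sum_add_distrib]
  congr 1
  exact Finset.sum_congr rfl fun a _ => by ring

private theorem EF_smul (r : ℝ) (f : ℕ → ℝ) (x : ℕ) : EF (fun a => r * f a) x = r * EF f x := by
  unfold EF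
  rw [← mul_div_assoc, Finset.mul_sum]
  congr 1
  exact Finset.sum_congr rfl fun a _ => by ring

private theorem EF_sum {ι : Type} (s : Finset ι) (f : ι → ℕ → ℝ) (x : ℕ) :
    EF (fun a => ∑ i ∈ s, f i a) x = ∑ i ∈ s, EF (f i) x := by
  unfold EF
  rw [← Finset.sum_div, Finset.sum_comm]
  congr 1
  exact Finset.sum_congr rfl fun a _ => by rw [Finset.sum_mul]

private theorem EF_nonneg (f : ℕ → ℝ) (hf : ∀ a, 0 ≤ f a) (x : ℕ) : 0 ≤ EF f x := by
  unfold EF
  refine div_nonneg (Finset.sum_nonneg fun a _ => mul_nonneg (hf a) (by positivity)) ?_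
  rcases Nat.eq_zero_or_pos x with rfl | h
  · simp
  · exact Real.log_nonneg (by exact_mod_cast h)

private theorem one_inter (A B : Set ℕ) (a : ℕ) : one (A ∩ B) a = one A a * one B a := by
  unfold one
  by_cases h1 : a ∈ A <;> by_cases h2 : a ∈ B <;> simp [h1, h2]

private theorem one_sq (A : Set ℕ) (a : ℕ) : one A a * one A a = one A a := by
  unfold one
  split_ifs <;> simp

private theorem one_univ (a : ℕ) : one Set.univ a = 1 := by
  unfold one; simp

private theorem quad_x (P : Finset ℕ) (A : Set ℕ) (t c : ℝ) (x : ℕ) :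
    0 ≤ t ^ 2 * LD A x + ∑ p ∈ P, ∑ q ∈ P, LD ({a | p ∣ a} ∩ {a | q ∣ a}) x + c ^ 2 * LD Set.univ x
      + 2 * t * ∑ p ∈ P, LD (A ∩ {a | p ∣ a}) x - 2 * t * c * LD A x
      - 2 * c * ∑ p ∈ P, LD {a | p ∣ a} x := by
  have h := EF_nonneg (fun a => (t * one A a + ∑ p ∈ P, one {a | p ∣ a} a - c) ^ 2)
    (fun a => sq_nonneg _) x
  have e : (fun a => (t * one A a + ∑ p ∈ P, one {a | p ∣ a} a - c) ^ 2) =
      fun a => (t ^ 2 * one A a + ∑ p ∈ P, ∑ q ∈ P, one ({a | p ∣ a} ∩ {a | q ∣ a}) a)
        + (c ^ 2 * one Set.univ a + ((2 * t) * (∑ p ∈ P, one (A ∩ {a | p ∣ a}) a)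
        + ((-(2 * t * c)) * one A a + (-(2 * c)) * (∑ p ∈ P, one {a | p ∣ a} a)))) := by
    funext a
    have e1 : ∑ p ∈ P, ∑ q ∈ P, one ({a | p ∣ a} ∩ {a | q ∣ a}) a =
        (∑ p ∈ P, one {a | p ∣ a} a) * (∑ p ∈ P, one {a | p ∣ a} a) := by
      rw [Finset.sum_mul_sum]
      exact Finset.sum_congr rfl fun p _ => Finset.sum_congr rfl fun q _ => one_inter _ _ a
    have e2 : ∑ p ∈ P, one (A ∩ {a | p ∣ a}) a = one A a * ∑ p ∈ P, one {a | p ∣ a} a := by
      rw [Finset.mul_sum]
      exact Finset.sum_congr rfl fun p _ => one_inter _ _ a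
    rw [e1, e2, one_univ]
    have e3 := one_sq A a
    have e4 : (t * one A a) ^ 2 = t ^ 2 * one A a := by
      rw [mul_pow, sq (one A a), e3]
    linear_combination e4
  rw [e] at h
  rw [EF_add, EF_add, EF_smul, EF_sum, EF_add, EF_smul, EF_add, EF_smul, EF_sum, EF_add, EF_smul,
    EF_smul, EF_sum] at h
  simp only [EF_sum] at h
  simp only [← LD_EF] at h
  linarith

/-! ### dilations -/

private theorem sum_dvd (p : ℕ) (hp : 0 < p) (f : ℕ → ℝ) (x : ℕ) :
    ∑ a ∈ Finset.Icc 1 x, (if p ∣ a then f (a / p) else 0) = ∑ a ∈ Finset.Icc 1 (x / p), f a := by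
  rw [← Finset.sum_filter]
  symm
  refine Finset.sum_bij' (fun a _ => p * a) (fun a _ => a / p) ?_ ?_ ?_ ?_ ?_
  · intro a ha
    rw [Finset.mem_Icc] at ha
    rw [Finset.mem_filter, Finset.mem_Icc]
    refine ⟨⟨Nat.mul_pos hp ha.1, ?_⟩, dvd_mul_right p a⟩
    rw [mul_comm]
    exact (Nat.le_div_iff_mul_le hp).mp ha.2
  · intro a ha
    rw [Finset.mem_filter, Finset.mem_Icc] at ha
    rw [Finset.mem_Icc]
    refine ⟨?_, Nat.div_le_div_right ha.1.2⟩
    exact Nat.div_pos (Nat.le_of_dvd ha.1.1 ha.2) hp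
  · intro a _
    exact Nat.mul_div_cancel_left a hp
  · intro a ha
    rw [Finset.mem_filter] at ha
    exact Nat.mul_div_cancel' ha.2
  · intro a _
    rw [Nat.mul_div_cancel_left a hp]

private theorem SA_dil (p : ℕ) (hp : 0 < p) (A : Set ℕ) (x : ℕ) :
    SA ((fun a => p * a) '' A) x = SA A (x / p) / p := by
  unfold SA
  rw [Finset.sum_div, ← sum_dvd p hp (fun a => A.indicator (fun a : ℕ => (1 : ℝ) / a) a / p) x]
  refine Finset.sum_congr rfl fun a _ => ?_
  have hp' : (p : ℝ) ≠ 0 := by exact_mod_cast hp.ne'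
  by_cases h : p ∣ a
  · obtain ⟨b, rfl⟩ := h
    rw [if_pos (dvd_mul_right p b), Nat.mul_div_cancel_left b hp]
    by_cases hb : b ∈ A
    · rw [Set.indicator_of_mem (show p * b ∈ (fun a => p * a) '' A from ⟨b, hb, rfl⟩),
        Set.indicator_of_mem hb]
      push_cast
      rw [div_div, mul_comm]
    · rw [Set.indicator_of_notMem, Set.indicator_of_notMem hb, zero_div]
      rintro ⟨c, hc, e⟩
      have : c = b := Nat.eq_of_mul_eq_mul_left hp e
      exact hb (this ▸ hc)
  · rw [if_neg h, Set.indicator_of_notMem]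
    rintro ⟨c, _, rfl⟩
    exact h (dvd_mul_right p c)

private theorem SA_div_le (A : Set ℕ) (p : ℕ) (x : ℕ) : SA A (x / p) ≤ SA A x :=
  Finset.sum_le_sum_of_subset_of_nonneg (Finset.Icc_subset_Icc_right (Nat.div_le_self x p))
    fun a _ _ => ind_nonneg A a

private theorem SA_sub (A : Set ℕ) (p : ℕ) (hp : 0 < p) (x : ℕ) (hx : 0 < x) :
    SA A x - SA A (x / p) ≤ 1 + Real.log p := by
  have h1 : SA A x - SA A (x / p) ≤ hs x - hs (x / p) := by
    have hd : Finset.Icc 1 (x / p) ⊆ Finset.Icc 1 x :=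
      Finset.Icc_subset_Icc_right (Nat.div_le_self x p)
    unfold SA hs
    rw [← Finset.sum_sdiff hd, ← Finset.sum_sdiff hd, add_sub_cancel_right, add_sub_cancel_right]
    refine Finset.sum_le_sum fun a _ => ?_
    exact Set.indicator_le_self' (fun _ _ => by positivity) a
  have h2 := hs_le x
  have h3 := le_hs (x / p)
  have hp' : (0 : ℝ) < p := by exact_mod_cast hp
  have hx' : (0 : ℝ) < x := by exact_mod_cast hx
  have h4 : Real.log x - Real.log p ≤ Real.log (((x / p : ℕ) : ℝ) + 1) := by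
    rw [← Real.log_div hx'.ne' hp'.ne']
    refine Real.log_le_log (by positivity) ?_
    rw [div_le_iff₀ hp']
    have h5 : x < (x / p + 1) * p := by
      have := Nat.lt_mul_div_succ x hp
      rwa [mul_comm] at this
    have h6 : (x : ℝ) < ((x / p : ℕ) + 1 : ℝ) * p := by exact_mod_cast h5
    exact h6.le
  linarith

private theorem dil_tend (p : ℕ) (hp : 0 < p) (A : Set ℕ) :
    Tendsto (fun x => LD ((fun a => p * a) '' A) x - LD A x / p) atTop (𝓝 0) := by
  have hp' : (0 : ℝ) < p := by exact_mod_cast hp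
  rw [tendsto_zero_iff_abs_tendsto_zero]
  refine squeeze_zero' (Eventually.of_forall fun x => abs_nonneg _) ?_
    (one_div_log_tend ((1 + Real.log p) / p))
  filter_upwards [eventually_ge_atTop 2] with x hx
  have hl : 0 < Real.log x := Real.log_pos (by exact_mod_cast hx)
  have e : LD ((fun a => p * a) '' A) x - LD A x / p =
      -((SA A x - SA A (x / p)) / p / Real.log x) := by
    rw [LD_eq, LD_eq, SA_dil p hp]
    field_simp
    ring
  show |LD ((fun a => p * a) '' A) x - LD A x / p| ≤ _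
  rw [e, abs_neg, abs_of_nonneg]
  · refine div_le_div_of_nonneg_right ?_ hl.le
    refine div_le_div_of_nonneg_right ?_ hp'.le
    exact SA_sub A p hp x (by omega)
  · refine div_nonneg (div_nonneg ?_ hp'.le) hl.le
    linarith [SA_div_le A p x]

/-! ### multiples of the elements of a small set -/

private theorem SA_primes (T : Set ℕ) (hT : ∀ p ∈ T, 0 < p)
    (hs' : Summable (T.indicator fun p : ℕ => (1 : ℝ) / p)) (x : ℕ) (hx : 0 < x) :
    SA {a | ∃ p ∈ T, p ∣ a} x ≤
      (∑' p, T.indicator (fun p : ℕ => (1 : ℝ) / p) p) * (1 + Real.log x) := by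
  have hlx : 0 ≤ 1 + Real.log x := by
    have := Real.log_nonneg (show (1 : ℝ) ≤ x by exact_mod_cast hx)
    linarith
  have h1 : SA {a | ∃ p ∈ T, p ∣ a} x ≤ ∑ p ∈ Finset.Icc 1 x,
      T.indicator (fun p : ℕ => (1 : ℝ) / p) p * hs (x / p) := by
    have h2 : ∀ p ∈ Finset.Icc 1 x, T.indicator (fun p : ℕ => (1 : ℝ) / p) p * hs (x / p) =
        ∑ a ∈ Finset.Icc 1 x, (if p ∣ a then one T p * (1 / (a : ℝ)) else 0) := by
      intro p hp
      rw [Finset.mem_Icc] at hp
      have h3 := sum_dvd p hp.1 (fun a => one T p * (1 / ((p : ℝ) * a))) x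
      have h4 : ∑ a ∈ Finset.Icc 1 x, (if p ∣ a then one T p * (1 / (a : ℝ)) else 0) =
          ∑ a ∈ Finset.Icc 1 x, (if p ∣ a then one T p * (1 / ((p : ℝ) * ((a / p : ℕ) : ℝ)))
            else 0) := by
        refine Finset.sum_congr rfl fun a _ => ?_
        by_cases h : p ∣ a
        · rw [if_pos h, if_pos h]
          have h5 : (p : ℝ) * ((a / p : ℕ) : ℝ) = a := by
            exact_mod_cast Nat.mul_div_cancel' h
          rw [h5]
        · rw [if_neg h, if_neg h]
      rw [h4, h3]
      unfold hs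
      rw [Finset.mul_sum]
      refine Finset.sum_congr rfl fun a _ => ?_
      unfold one
      by_cases h : p ∈ T
      · rw [Set.indicator_of_mem h, if_pos h, one_mul, one_div_mul_one_div]
      · rw [Set.indicator_of_notMem h, if_neg h, zero_mul, zero_mul]
    rw [Finset.sum_congr rfl h2, Finset.sum_comm]
    unfold SA
    refine Finset.sum_le_sum fun a ha => ?_
    rw [Finset.mem_Icc] at ha
    have hnn : ∀ p ∈ Finset.Icc 1 x, (0 : ℝ) ≤ if p ∣ a then one T p * (1 / (a : ℝ)) else 0 := by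
      intro p _
      unfold one
      split_ifs <;> positivity
    by_cases h : a ∈ {a | ∃ p ∈ T, p ∣ a}
    · rw [Set.indicator_of_mem h]
      obtain ⟨p, hp, hpa⟩ := h
      have hmem : p ∈ Finset.Icc 1 x := by
        rw [Finset.mem_Icc]
        exact ⟨hT p hp, (Nat.le_of_dvd (by omega) hpa).trans ha.2⟩
      refine le_trans ?_ (Finset.single_le_sum hnn hmem)
      rw [if_pos hpa]
      unfold one
      rw [if_pos hp, one_mul]
    · rw [Set.indicator_of_notMem h]
      exact Finset.sum_nonneg hnn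
  refine h1.trans ?_
  have h6 : ∑ p ∈ Finset.Icc 1 x, T.indicator (fun p : ℕ => (1 : ℝ) / p) p * hs (x / p) ≤
      (∑ p ∈ Finset.Icc 1 x, T.indicator (fun p : ℕ => (1 : ℝ) / p) p) * (1 + Real.log x) := by
    rw [Finset.sum_mul]
    refine Finset.sum_le_sum fun p _ => mul_le_mul_of_nonneg_left ?_ (ind_nonneg T p)
    have h7 : hs (x / p) ≤ hs x := Finset.sum_le_sum_of_subset_of_nonneg
      (Finset.Icc_subset_Icc_right (Nat.div_le_self x p)) fun a _ _ => by positivity
    exact h7.trans (hs_le x)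
  refine h6.trans (mul_le_mul_of_nonneg_right ?_ hlx)
  exact hs'.sum_le_tsum _ fun p _ => ind_nonneg T p

/-- If the logarithmic density of `B` is not zero, some mean is positive on `B`.
Plan: there are eps > 0 and infinitely many x with LD B x >= eps; take an ultrafilter U below
`atTop` containing these x, and mu A = limit of LD A along U (LD A x lies in [0, 2] for x >= 3).
quad: expand 0 <= sum over a in Icc 1 x of (t 1_A(a) + #{p in P, p | a} - c)^2 / a, divide by
log x and pass to the limit (LD univ x -> 1). dil: the sum over p A up to x is 1/p times the sum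
over A up to x/p, and the sum of 1/a over x/p < a <= x is at most log p + 1. primes: for each x,
the sum of 1/a over a <= x divisible by some p in T is at most sum over p in T of
(1/p) (1 + log x). -/
theorem exists_mean (B : Set ℕ) (hB : ¬ Tendsto (LD B) atTop (𝓝 0)) :
    ∃ μ : Set ℕ → ℝ, IsMean μ ∧ 0 < μ B := by
  classical
  -- an ultrafilter
  obtain ⟨ε, hε, hfr⟩ : ∃ ε : ℝ, 0 < ε ∧ ∃ᶠ x in atTop, ε ≤ LD B x := by
    by_contra hcon
    push Not at hcon
    apply hB
    rw [Metric.tendsto_nhds]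
    intro ε hε
    have h1 := hcon ε hε
    filter_upwards [h1, eventually_ge_atTop 3] with x h2 h3
    rw [Real.dist_eq, sub_zero, abs_of_nonneg (LD_mem B h3).1]
    exact h2
  have hne : (atTop ⊓ 𝓟 {x | ε ≤ LD B x} : Filter ℕ).NeBot := by
    rw [← Filter.frequently_mem_iff_neBot] at *
    exact hfr
  let U : Ultrafilter ℕ := Ultrafilter.of (atTop ⊓ 𝓟 {x | ε ≤ LD B x})
  have hU : (U : Filter ℕ) ≤ atTop ⊓ 𝓟 {x | ε ≤ LD B x} := Ultrafilter.of_le _
  have hU1 : (U : Filter ℕ) ≤ atTop := hU.trans inf_le_left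
  have hU2 : ∀ᶠ x in (U : Filter ℕ), ε ≤ LD B x := (hU.trans inf_le_right) (mem_principal_self _)
  have hex : ∀ A : Set ℕ, ∃ l : ℝ, Tendsto (LD A) (U : Filter ℕ) (𝓝 l) := by
    intro A
    have h1 : (U.map (LD A) : Filter ℝ) ≤ 𝓟 (Set.Icc (0 : ℝ) 2) := by
      rw [le_principal_iff]
      have : ∀ᶠ x in (U : Filter ℕ), LD A x ∈ Set.Icc (0 : ℝ) 2 :=
        hU1 ((eventually_ge_atTop 3).mono fun x hx => LD_mem A hx)
      exact this
    obtain ⟨l, _, hl⟩ := isCompact_Icc.ultrafilter_le_nhds (U.map (LD A)) h1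
    exact ⟨l, hl⟩
  choose μ hμ using hex
  have hge : ∀ {f g : ℕ → ℝ} {l m : ℝ}, Tendsto f (U : Filter ℕ) (𝓝 l) →
      Tendsto g (U : Filter ℕ) (𝓝 m) → (∀ᶠ x in atTop, f x ≤ g x) → l ≤ m := by
    intro f g l m hf hg h
    exact le_of_tendsto_of_tendsto hf hg (hU1 h)
  have hnn : ∀ A, 0 ≤ μ A := fun A =>
    hge tendsto_const_nhds (hμ A) ((eventually_ge_atTop 3).mono fun x hx => (LD_mem A hx).1)
  have hlog : ∀ x : ℕ, 0 ≤ Real.log x := fun x => by
    rcases Nat.eq_zero_or_pos x with rfl | h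
    · simp
    · exact Real.log_nonneg (by exact_mod_cast h)
  have huniv : μ Set.univ = 1 := tendsto_nhds_unique (hμ Set.univ) (LD_univ_tend.mono_left hU1)
  refine ⟨μ, ?_, ?_⟩
  · constructor
    · exact hnn
    · intro A A' h
      exact hge (hμ A) (hμ A') (Eventually.of_forall fun x =>
        div_le_div_of_nonneg_right (SA_mono h x) (hlog x))
    · intro A A' h
      refine tendsto_nhds_unique (hμ (A ∪ A')) ?_
      have e : LD (A ∪ A') = fun x => LD A x + LD A' x := by
        funext x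
        unfold LD
        rw [← add_div, ← Finset.sum_add_distrib]
        congr 1
        refine Finset.sum_congr rfl fun a _ => ?_
        rw [Set.indicator_union_of_disjoint h]
      rw [e]
      exact (hμ A).add (hμ A')
    · exact huniv
    · refine tendsto_nhds_unique (hμ {0}) ?_
      have e : LD {0} = fun _ => 0 := by
        funext x
        unfold LD
        rw [Finset.sum_eq_zero, zero_div]
        intro a ha
        rw [Finset.mem_Icc] at ha
        rw [Set.indicator_of_notMem]
        rw [Set.mem_singleton_iff]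
        omega
      rw [e]
      exact tendsto_const_nhds
    · intro p hp A
      have h1 := (dil_tend p hp A).mono_left hU1
      have h2 := (hμ ((fun a => p * a) '' A)).sub ((hμ A).div_const (p : ℝ))
      have h3 := tendsto_nhds_unique h1 h2
      linarith
    · intro T hT hs'
      have h1 : Tendsto (fun x : ℕ => (∑' p, T.indicator (fun p : ℕ => (1 : ℝ) / p) p) *
          (1 / Real.log x + 1)) (U : Filter ℕ)
          (𝓝 (∑' p, T.indicator (fun p : ℕ => (1 : ℝ) / p) p)) := by
        have := (((one_div_log_tend 1).mono_left hU1).add_const 1).const_mul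
          (∑' p, T.indicator (fun p : ℕ => (1 : ℝ) / p) p)
        simpa using this
      refine hge (hμ _) h1 ?_
      filter_upwards [eventually_ge_atTop 2] with x hx
      have hl : 0 < Real.log x := Real.log_pos (by exact_mod_cast hx)
      rw [LD_eq, div_le_iff₀ hl]
      refine (SA_primes T hT hs' x (by omega)).trans (le_of_eq ?_)
      field_simp
    · intro P A t c
      have h1 : Tendsto (fun x => t ^ 2 * LD A x + ∑ p ∈ P, ∑ q ∈ P,
          LD ({a | p ∣ a} ∩ {a | q ∣ a}) x + c ^ 2 * LD Set.univ x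
          + 2 * t * ∑ p ∈ P, LD (A ∩ {a | p ∣ a}) x - 2 * t * c * LD A x
          - 2 * c * ∑ p ∈ P, LD {a | p ∣ a} x) (U : Filter ℕ) (𝓝 (t ^ 2 * μ A + ∑ p ∈ P, ∑ q ∈ P,
          μ ({a | p ∣ a} ∩ {a | q ∣ a}) + c ^ 2 * μ Set.univ
          + 2 * t * ∑ p ∈ P, μ (A ∩ {a | p ∣ a}) - 2 * t * c * μ A
          - 2 * c * ∑ p ∈ P, μ {a | p ∣ a})) := by
        refine (((((((hμ A).const_mul (t ^ 2)).add (tendsto_finsetSum _ fun p _ =>
          tendsto_finsetSum _ fun q _ => hμ _)).add ((hμ Set.univ).const_mul (c ^ 2))).add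
          ((tendsto_finsetSum _ fun p _ => hμ _).const_mul (2 * t))).sub
          ((hμ A).const_mul (2 * t * c))).sub
          ((tendsto_finsetSum _ fun p _ => hμ _).const_mul (2 * c)))
      have h2 := hge tendsto_const_nhds h1 (Eventually.of_forall fun x => quad_x P A t c x)
      rw [huniv, mul_one] at h2
      exact h2
  · refine lt_of_lt_of_le hε ?_
    exact le_of_tendsto_of_tendsto tendsto_const_nhds (hμ B) hU2

end Pool.Agent.LogAll
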