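import Pool.Agent.Lib_MP_1eadae_la.Defs

/-!
# Piece A: rank bound from the linear subgroup theorem
-/

set_option autoImplicit false

namespace Pool.Agent.LogAll

open Pool.Agent.LogRel

/-- Let `lam_1, ..., lam_n` be logarithms of algebraic numbers, linearly independent over `ℚ`, with
`a_j lam_j ∈ B` for some nonzero `a_j ∈ A`. Then `n ≤ d (d - 1) + dim B`, `d = dim A`. -/
theorem rank_le {n : ℕ} (lam : Fin n → ℂ) (hl : LinearIndependent ℚ lam)
    (hexp : ∀ j, IsAlgebraic ℚ (Complex.exp (lam j)))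
    (A B : Submodule Qb ℂ) (hA : FiniteDimensional Qb A) (hB : FiniteDimensional Qb B)
    (h : ∀ j, ∃ a ∈ A, a ≠ 0 ∧ a * lam j ∈ B) :
    n ≤ Module.finrank Qb A * (Module.finrank Qb A - 1) + Module.finrank Qb B := by
  rcases Nat.eq_zero_or_pos n with hn | hn
  · omega
  have hA0 : 1 ≤ Module.finrank Qb A := by
    obtain ⟨a, haA, ha0, _⟩ := h ⟨0, hn⟩
    have : Nontrivial A := ⟨⟨⟨a, haA⟩, 0, fun h => ha0 (by simpa using congrArg Subtype.val h)⟩⟩
    exact Module.finrank_pos
  set d := Module.finrank Qb A with hd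
  set b := Module.finrank Qb B with hb
  by_cases hnd : n < d
  · have h1 : n ≤ d - 1 := by omega
    have h2 : d - 1 ≤ d * (d - 1) := Nat.le_mul_of_pos_left _ hA0
    omega
  push Not at hnd
  by_cases hnb : n ≤ b
  · omega
  push Not at hnb
  choose al halA hal0 halB using h
  -- the map `(x_j) ↦ ∑ x_j lam_j`
  let Φ : (Fin n → A) →ₗ[Qb] ℂ :=
    { toFun := fun x => ∑ j, (x j : ℂ) * lam j
      map_add' := by
        intro x y
        simp [add_mul, Finset.sum_add_distrib]
      map_smul' := by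
        intro c x
        rw [RingHom.id_apply, Finset.smul_sum]
        refine Finset.sum_congr rfl fun j _ => ?_
        rw [Pi.smul_apply, Submodule.coe_smul, smul_mul_assoc] }
  let ι : (Fin n → Qb) →ₗ[Qb] (Fin n → A) :=
    { toFun := fun t j => t j • (⟨al j, halA j⟩ : A)
      map_add' := by
        intro x y; funext j; simp [add_smul]
      map_smul' := by
        intro c x; funext j; simp [mul_smul] }
  have hι : Function.Injective ι := by
    intro x y hxy
    funext j
    have h1 : x j • (⟨al j, halA j⟩ : A) = y j • (⟨al j, halA j⟩ : A) := congrFun hxy j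
    have h2 : (x j - y j) • (⟨al j, halA j⟩ : A) = 0 := by rw [sub_smul, h1, sub_self]
    rcases smul_eq_zero.1 h2 with h3 | h3
    · exact sub_eq_zero.1 h3
    · exact absurd (congrArg Subtype.val h3) (hal0 j)
  have hrange : (LinearMap.range (Φ ∘ₗ ι)) ≤ B := by
    rintro _ ⟨t, rfl⟩
    simp only [LinearMap.comp_apply]
    change ∑ j, ((t j • (⟨al j, halA j⟩ : A) : A) : ℂ) * lam j ∈ B
    refine Submodule.sum_mem _ fun j _ => ?_
    have : ((t j • (⟨al j, halA j⟩ : A) : A) : ℂ) * lam j = t j • (al j * lam j) := by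
      rw [Submodule.coe_smul, smul_mul_assoc]
    rw [this]
    exact B.smul_mem _ (halB j)
  have h1 : Module.finrank Qb (LinearMap.range (Φ ∘ₗ ι)) +
      Module.finrank Qb (LinearMap.ker (Φ ∘ₗ ι)) = n := by
    have := LinearMap.finrank_range_add_finrank_ker (Φ ∘ₗ ι)
    simpa using this
  have h2 : Module.finrank Qb (LinearMap.range (Φ ∘ₗ ι)) ≤ b :=
    Submodule.finrank_mono hrange
  have h3 : Module.finrank Qb (LinearMap.ker (Φ ∘ₗ ι)) ≤ Module.finrank Qb (LinearMap.ker Φ) := by
    have hle : (LinearMap.ker (Φ ∘ₗ ι)).map ι ≤ LinearMap.ker Φ := by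
      rintro _ ⟨t, ht, rfl⟩
      exact ht
    calc Module.finrank Qb (LinearMap.ker (Φ ∘ₗ ι))
        = Module.finrank Qb ((LinearMap.ker (Φ ∘ₗ ι)).map ι) :=
          (LinearEquiv.finrank_eq (Submodule.equivMapOfInjective ι hι _))
      _ ≤ _ := Submodule.finrank_mono hle
  have h4 : Module.finrank Qb (LinearMap.range Φ) + Module.finrank Qb (LinearMap.ker Φ) =
      n * d := by
    have := LinearMap.finrank_range_add_finrank_ker Φ
    rw [this, Module.finrank_pi_fintype]
    simp [hd]
  have h5 : (A * Vl lam ^ 1 : Submodule Qb ℂ) ≤ LinearMap.range Φ := by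
    rw [pow_one, Submodule.mul_le]
    intro a ha v hv
    unfold Vl at hv
    rw [Submodule.mem_span_range_iff_exists_fun] at hv
    obtain ⟨c, rfl⟩ := hv
    refine ⟨fun j => c j • (⟨a, ha⟩ : A), ?_⟩
    change ∑ j, ((c j • (⟨a, ha⟩ : A) : A) : ℂ) * lam j = _
    rw [Finset.mul_sum]
    refine Finset.sum_congr rfl fun j _ => ?_
    rw [Submodule.coe_smul, smul_mul_assoc, mul_smul_comm]
  have h6 := finrank_W_mul_pow hn lam hl hexp A hA 1 d le_rfl
  have h7 : Module.finrank Qb ↥(A * Vl lam ^ 1) ≤ Module.finrank Qb (LinearMap.range Φ) :=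
    Submodule.finrank_mono h5
  have h8 : d + d * (n - d) ≤ n * d - (n - b) := by
    have := h6.2
    omega
  clear_value d
  clear h6 h7
  obtain ⟨e, rfl⟩ : ∃ e, d = e + 1 := ⟨d - 1, by omega⟩
  obtain ⟨m, hm⟩ : ∃ m, n = e + 1 + m := ⟨n - (e + 1), by omega⟩
  rw [hm] at h8 hnb ⊢
  have h9 : e + 1 + m - (e + 1) = m := by omega
  rw [h9] at h8
  have h10 : e + 1 - 1 = e := by omega
  rw [h10]
  have h11 : (e + 1 + m) * (e + 1) = (e + 1) * (e + 1) + m * (e + 1) := by ring
  rw [h11] at h8
  have h12 : (e + 1) * (e + 1) = (e + 1) * e + (e + 1) := by ring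
  have h13 : (e + 1) * m = m * (e + 1) := by ring
  omega

end Pool.Agent.LogAll
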