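import Pool.Agent.Lib_MP_1eadae_la.ExtF
import Pool.Agent.Lib_MP_1eadae_la.MeanC
import Pool.Agent.Lib_MP_1eadae_la.HtB
import Pool.Agent.Lib_MP_1eadae_la.RankA
import Pool.Agent.Lib_MP_1eadae_la.LogP

/-!
# Piece F2: logarithms of almost all integers
-/

set_option autoImplicit false

namespace Pool.Agent.LogAll

open Filter Topology Polynomial Pool.Agent.LogRel

/-- the positive integers whose logarithm is a root of a nonzero polynomial of degree at most `D`
with coefficients in `W` -/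
def Bad (W : Submodule Qb ℂ) (D : ℕ) : Set ℕ :=
  {a | 0 < a ∧ ∃ P : ℂ[X], P ≠ 0 ∧ P.natDegree ≤ D ∧ (∀ i, P.coeff i ∈ W) ∧
    P.eval (Complex.log a) = 0}

/-- the field generated by a space of numbers -/
noncomputable abbrev fld (M : Submodule Qb ℂ) : IntermediateField Qb ℂ :=
  IntermediateField.adjoin Qb (M : Set ℂ)

theorem mem_fld {M : Submodule Qb ℂ} {z : ℂ} (hz : z ∈ M) : z ∈ fld M :=
  IntermediateField.subset_adjoin _ _ hz

theorem exists_lift {M : Submodule Qb ℂ} {P : ℂ[X]} (hP : ∀ i, P.coeff i ∈ M) :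
    ∃ Q : (fld M)[X], Q.map (algebraMap (fld M) ℂ) = P := by
  have : P ∈ Polynomial.lifts (algebraMap (fld M) ℂ) := by
    rw [Polynomial.lifts_iff_coeff_lifts]
    intro i
    exact ⟨⟨_, mem_fld (hP i)⟩, rfl⟩
  exact (Polynomial.mem_lifts _).1 this

/-- Logarithms of algebraic numbers of bounded height in a finitely generated field have finite
rank. -/
theorem bounded_rank (M : Submodule Qb ℂ) (hM : FiniteDimensional Qb M) :
    ∃ n₀ : ℕ, ∀ (n : ℕ) (lam : Fin n → ℂ), LinearIndependent ℚ lam →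
      (∀ j, IsAlgebraic ℚ (Complex.exp (lam j))) →
      (∀ j, lam j ∈ fld M ∧ ∃ P : ℂ[X], P ≠ 0 ∧ (∀ i, P.coeff i ∈ M) ∧ P.eval (lam j) = 0) →
      n ≤ n₀ := by
  set M' : Submodule Qb ℂ := M ⊔ Submodule.span Qb {1} with hM'
  have hM'fd : FiniteDimensional Qb M' := by
    have := hM
    infer_instance
  have h1 : (1 : ℂ) ∈ M' := Submodule.mem_sup_right (Submodule.mem_span_singleton_self 1)
  obtain ⟨N, hN, hN2⟩ := height_fd M' hM'fd h1
  refine ⟨Module.finrank Qb M' * (Module.finrank Qb M' - 1) + Module.finrank Qb N, ?_⟩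
  intro n lam hl hexp h
  refine rank_le lam hl hexp M' N hM'fd hN fun j => ?_
  obtain ⟨hj, P, hP, hPM, hPj⟩ := h j
  refine hN2 (lam j) ?_ ⟨P, hP, fun i => Submodule.mem_sup_left (hPM i), hPj⟩
  exact IntermediateField.adjoin.mono Qb _ _ (fun z hz => Submodule.mem_sup_left hz) hj

/-- a set of numbers all of whose rationally independent finite families are short spans a space
of finite dimension -/
theorem finite_span (Z : Set ℂ) (n₀ : ℕ)
    (h : ∀ (n : ℕ) (lam : Fin n → ℂ), LinearIndependent ℚ lam → (∀ j, lam j ∈ Z) → n ≤ n₀) :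
    FiniteDimensional ℚ (Submodule.span ℚ Z) := by
  obtain ⟨b, hbZ, hspan, hli⟩ := exists_linearIndependent ℚ Z
  have hfin : b.Finite := by
    by_contra hinf
    have hinf' : b.Infinite := hinf
    let e := hinf'.natEmbedding
    let lam : Fin (n₀ + 1) → ℂ := fun j => (e (j : ℕ) : ℂ)
    have h1 : LinearIndependent ℚ lam :=
      hli.comp (fun j : Fin (n₀ + 1) => e (j : ℕ))
        (fun i j hij => Fin.ext (e.injective hij))
    have h2 := h (n₀ + 1) lam h1 fun j => hbZ (e (j : ℕ)).2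
    omega
  rw [← hspan]
  exact FiniteDimensional.span_of_finite ℚ hfin

theorem small_of_finite {T : Set ℕ} (hT : {p : ℕ | p.Prime ∧ p ∈ T}.Finite) : Small T := by
  unfold Small
  refine summable_of_hasFiniteSupport (hT.subset ?_)
  intro p hp
  by_contra h
  exact hp (Set.indicator_of_notMem h _)

/-- sets of finite rank have mean zero -/
theorem finite_rank_null (μ : Set ℕ → ℝ) (hμ : IsMean μ) (B : Set ℕ) (hB : ∀ a ∈ B, 0 < a)
    (hfd : FiniteDimensional ℚ (Submodule.span ℚ ((fun a : ℕ => Complex.log (a : ℂ)) '' B))) :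
    μ B = 0 := by
  by_contra hne
  have hpos : 0 < μ B := lt_of_le_of_ne (hμ.nonneg _) (Ne.symm hne)
  have h1 := small_of_submodule μ hμ
    (Submodule.span ℚ ((fun a : ℕ => Complex.log (a : ℂ)) '' B)) B
    (fun a ha => ⟨hB a ha, Submodule.subset_span ⟨a, ha, rfl⟩⟩) hpos
  have h2 : Small {p : ℕ | Complex.log (p : ℂ) ∈
      Submodule.span ℚ ((fun a : ℕ => Complex.log (a : ℂ)) '' B)} :=
    small_of_finite (finite_primes _ hfd)
  refine not_small_univ ((h1.union h2).mono ?_)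
  intro p _
  by_cases h : Complex.log (p : ℂ) ∈
      Submodule.span ℚ ((fun a : ℕ => Complex.log (a : ℂ)) '' B)
  · exact Or.inr h
  · exact Or.inl h

/-- small sets of primes have a finite subset outside of which few integers have a prime factor -/
theorem exists_finset (μ : Set ℕ → ℝ) (hμ : IsMean μ) (T : Set ℕ)
    (hT : Small T) (ε : ℝ) (hε : 0 < ε) :
    ∃ s : Finset ℕ, μ {a | ∃ p ∈ {p : ℕ | p.Prime ∧ p ∈ T} \ (s : Set ℕ), p ∣ a} < ε := by
  unfold Small at hT
  set f : ℕ → ℝ := {p : ℕ | p.Prime ∧ p ∈ T}.indicator fun p : ℕ => (1 : ℝ) / p with hf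
  have h1 := tendsto_tsum_compl_atTop_zero f
  have h2 : ∀ᶠ s : Finset ℕ in atTop, ∑' a : { x // x ∉ s }, f a < ε :=
    (tendsto_order.1 h1).2 ε hε
  obtain ⟨s, hs⟩ := h2.exists
  refine ⟨s, ?_⟩
  have hind : ({p : ℕ | p.Prime ∧ p ∈ T} \ (s : Set ℕ)).indicator (fun p : ℕ => (1 : ℝ) / p) =
      ((s : Set ℕ)ᶜ).indicator f := by
    rw [hf, Set.indicator_indicator]
    congr 1
    ext p
    simp [and_comm]
  have hsum : Summable (((s : Set ℕ)ᶜ).indicator f) := hT.indicator _
  have h3 := hμ.primes ({p : ℕ | p.Prime ∧ p ∈ T} \ (s : Set ℕ))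
    (fun p hp => hp.1.1.pos) (by rw [hind]; exact hsum)
  rw [hind] at h3
  have h4 : ∑' p, ((s : Set ℕ)ᶜ).indicator f p = ∑' a : { x // x ∉ s }, f a := by
    have := tsum_subtype ((s : Set ℕ)ᶜ) f
    rw [← this]
    rfl
  rw [h4] at h3
  exact lt_of_le_of_lt h3 hs

/-- logarithms of integers with all prime factors in two classes -/
theorem log_mem_sup (X : Submodule ℚ ℂ) (n : ℕ) (hn : 0 < n)
    (h : ∀ p : ℕ, p.Prime → p ∣ n → Complex.log (p : ℂ) ∈ X) : Complex.log (n : ℂ) ∈ X := by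
  induction n using induction_on_primes with
  | zero => exact absurd hn (lt_irrefl _)
  | one => rw [clog_one]; exact X.zero_mem
  | prime_mul p a hp ih =>
    have ha : 0 < a := Nat.pos_of_ne_zero fun h => by simp [h] at hn
    rw [clog_mul hp.pos ha]
    exact X.add_mem (h p hp (Dvd.intro _ rfl))
      (ih ha fun q hq hqa => h q hq (hqa.mul_left p))

theorem main_one (W : Submodule Qb ℂ) (hW : FiniteDimensional Qb W) (D : ℕ) :
    Tendsto (LD (Bad W D)) atTop (𝓝 0) := by
  classical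
  by_contra hcon
  obtain ⟨μ, hμ, hpos⟩ := exists_mean _ hcon
  set M : Submodule Qb ℂ := W ⊔ Submodule.span Qb {1} with hMdef
  have hMfd : FiniteDimensional Qb M := by
    have := hW
    infer_instance
  -- bounded degree
  have hB : ∀ a ∈ Bad W D, 0 < a ∧ ∃ P : (fld M)[X], P ≠ 0 ∧ P.natDegree ≤ D ∧
      aeval (Complex.log (a : ℂ)) P = 0 := by
    rintro a ⟨ha, P, hP, hPD, hPW, hPa⟩
    refine ⟨ha, ?_⟩
    obtain ⟨Q, hQ⟩ := exists_lift (M := M) (P := P) fun i => Submodule.mem_sup_left (hPW i)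
    refine ⟨Q, ?_, ?_, ?_⟩
    · rintro rfl
      rw [Polynomial.map_zero] at hQ
      exact hP hQ.symm
    · rw [← hQ, Polynomial.natDegree_map] at hPD
      exact hPD
    · rw [Polynomial.aeval_def, ← Polynomial.eval_map, hQ]
      exact hPa
  obtain ⟨E, hE, hES⟩ := exists_ext μ hμ (fld M) D (Bad W D) hpos hB
  obtain ⟨s, hs⟩ := exists_finset μ hμ {p : ℕ | Complex.log (p : ℂ) ∉ E} hES _ hpos
  set T' : Set ℕ := {p : ℕ | p.Prime ∧ p ∈ {p : ℕ | Complex.log (p : ℂ) ∉ E}} with hT'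
  set B1 : Set ℕ := Bad W D \ {a | ∃ p ∈ T' \ (s : Set ℕ), p ∣ a} with hB1
  have hB1pos : 0 < μ B1 := by
    have := hμ.le_diff (Bad W D) {a | ∃ p ∈ T' \ (s : Set ℕ), p ∣ a}
    linarith
  -- the finite dimensional rational space of relations at the primes in s
  let Ω := algebraicClosure (fld M) ℂ
  let Ls : Submodule ℚ ℂ := Submodule.span ℚ ((fun p : ℕ => Complex.log (p : ℂ)) '' (s : Set ℕ))
  have hLs : FiniteDimensional ℚ Ls := FiniteDimensional.span_of_finite ℚ (s.finite_toSet.image _)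
  let Q1 : Submodule ℚ ℂ := Ls ⊓ qsub Ω.toSubfield
  have hQ1 : FiniteDimensional ℚ Q1 := by
    have := hLs
    exact Submodule.finiteDimensional_inf_left _ _
  obtain ⟨S1, hS1⟩ := (Submodule.fg_iff_finiteDimensional Q1).2 hQ1
  obtain ⟨S2, hS2⟩ : (⊤ : Submodule (fld M) E).FG := Module.Finite.fg_top
  let M2 : Submodule Qb ℂ := M ⊔ Submodule.span Qb ((S1 : Set ℂ) ∪ ((↑) : E → ℂ) '' (S2 : Set E))
  have hM2fd : FiniteDimensional Qb M2 := by
    have := hMfd
    have : FiniteDimensional Qb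
        (Submodule.span Qb ((S1 : Set ℂ) ∪ ((↑) : E → ℂ) '' (S2 : Set E))) :=
      FiniteDimensional.span_of_finite Qb
        (S1.finite_toSet.union (S2.finite_toSet.image _))
    infer_instance
  have hMM2 : fld M ≤ fld M2 :=
    IntermediateField.adjoin.mono Qb _ _ fun z hz => Submodule.mem_sup_left hz
  have hS1M2 : ∀ z ∈ S1, z ∈ fld M2 := fun z hz =>
    mem_fld (Submodule.mem_sup_right (Submodule.subset_span (Or.inl hz)))
  have hEM2 : ∀ y : E, (y : ℂ) ∈ fld M2 := by
    intro y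
    have hy : y ∈ Submodule.span (fld M) (S2 : Set E) := by rw [hS2]; trivial
    induction hy using Submodule.span_induction with
    | mem y hy =>
      exact mem_fld (Submodule.mem_sup_right (Submodule.subset_span (Or.inr ⟨y, hy, rfl⟩)))
    | zero => exact (fld M2).zero_mem
    | add y z _ _ hy hz => exact (fld M2).add_mem hy hz
    | smul c y _ hy =>
      have : ((c • y : E) : ℂ) = (c : ℂ) * (y : ℂ) := rfl
      rw [this]
      exact (fld M2).mul_mem (hMM2 c.2) hy
  have hQ1M2 : ∀ z ∈ Q1, z ∈ fld M2 := by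
    have : Q1 ≤ qsub (fld M2).toSubfield := by
      rw [← hS1, Submodule.span_le]
      exact hS1M2
    exact this
  have hlog : ∀ a ∈ B1, Complex.log (a : ℂ) ∈ fld M2 := by
    rintro a ⟨haB, haT⟩
    have h1 : Complex.log (a : ℂ) ∈ Ls ⊔ qsub E.toSubfield := by
      refine log_mem_sup _ a haB.1 fun p hp hpa => ?_
      by_cases hpE : Complex.log (p : ℂ) ∈ E
      · exact Submodule.mem_sup_right hpE
      · have hps : p ∈ s := by
          by_contra hps
          exact haT ⟨p, ⟨⟨hp, hpE⟩, hps⟩, hpa⟩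
        exact Submodule.mem_sup_left (Submodule.subset_span ⟨p, hps, rfl⟩)
    obtain ⟨u, hu, e, he, hue⟩ := Submodule.mem_sup.1 h1
    have heΩ : e ∈ Ω := by
      have h2 : IsAlgebraic (fld M) (⟨e, he⟩ : E) := Algebra.IsAlgebraic.isAlgebraic _
      have h3 : IsAlgebraic (fld M) ((⟨e, he⟩ : E) : ℂ) :=
        h2.algHom E.val
      exact mem_algebraicClosure_iff.2 h3
    have haΩ : Complex.log (a : ℂ) ∈ Ω := by
      obtain ⟨_, P, hP, _, hPa⟩ := hB a haB
      exact mem_algebraicClosure_iff.2 ⟨P, hP, hPa⟩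
    have huΩ : u ∈ Ω := by
      have : u = Complex.log (a : ℂ) - e := by rw [← hue]; ring
      rw [this]
      exact Ω.sub_mem haΩ heΩ
    rw [← hue]
    exact (fld M2).add_mem (hQ1M2 u ⟨hu, huΩ⟩) (hEM2 ⟨e, he⟩)
  obtain ⟨n₀, hn₀⟩ := bounded_rank M2 hM2fd
  have hfd : FiniteDimensional ℚ
      (Submodule.span ℚ ((fun a : ℕ => Complex.log (a : ℂ)) '' B1)) := by
    refine finite_span _ n₀ fun n lam hl hlam => ?_
    refine hn₀ n lam hl (fun j => ?_) (fun j => ?_)
    · obtain ⟨a, ha, hja⟩ := hlam j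
      rw [← hja]
      exact isAlgebraic_exp_clog ha.1.1
    · obtain ⟨a, ha, hja⟩ := hlam j
      rw [← hja]
      refine ⟨hlog a ha, ?_⟩
      obtain ⟨_, P, hP, _, hPW, hPa⟩ := ha.1
      exact ⟨P, hP, fun i => Submodule.mem_sup_left (Submodule.mem_sup_left (hPW i)), hPa⟩
  have h0 := finite_rank_null μ hμ B1 (fun a ha => ha.1.1) hfd
  linarith

end Pool.Agent.LogAll
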