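import Pool.Agent.Lib_MP_1eadae_la.Defs

/-!
# Piece D: level sets of additive functions
-/

set_option autoImplicit false

namespace Pool.Agent.LogAll

open Filter Topology

namespace NloD

variable {μ : Set ℕ → ℝ} {V : Type*} [AddCommGroup V] [Module ℚ V]

/-- level set -/
def lev (φ : ℂ →ₗ[ℚ] V) (c : V) : Set ℕ := {a : ℕ | 0 < a ∧ φ (Complex.log a) = c}

theorem mean_empty (hμ : IsMean μ) : μ ∅ = 0 := by
  have h := hμ.add ∅ ∅ (by simp)
  rw [Set.union_empty] at h
  linarith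

theorem mean_le_one (hμ : IsMean μ) (A : Set ℕ) : μ A ≤ 1 := by
  rw [← hμ.univ]; exact hμ.mono _ _ (Set.subset_univ A)

theorem log_mul {p a : ℕ} (hp : 0 < p) (ha : 0 < a) :
    Complex.log ((p * a : ℕ) : ℂ) = Complex.log p + Complex.log a := by
  have h1 : ((p * a : ℕ) : ℂ) = (((p : ℝ) * (a : ℝ) : ℝ) : ℂ) := by push_cast; ring
  have hp' : (0 : ℝ) < p := by exact_mod_cast hp
  have ha' : (0 : ℝ) < a := by exact_mod_cast ha
  rw [h1, ← Complex.ofReal_log (by positivity), Real.log_mul hp'.ne' ha'.ne', Complex.ofReal_add,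
    Complex.ofReal_log hp'.le, Complex.ofReal_log ha'.le, Complex.ofReal_natCast,
    Complex.ofReal_natCast]

theorem lev_inter (φ : ℂ →ₗ[ℚ] V) (c : V) {p : ℕ} (hp : 0 < p) :
    lev φ c ∩ {a | p ∣ a} = (fun a => p * a) '' lev φ (c - φ (Complex.log p)) := by
  ext a
  constructor
  · rintro ⟨⟨h0, h1⟩, ⟨b, rfl⟩⟩
    have hb : 0 < b := Nat.pos_of_ne_zero (by rintro rfl; simp at h0)
    refine ⟨b, ⟨hb, ?_⟩, rfl⟩
    rw [log_mul hp hb, map_add] at h1
    rw [← h1]; abel
  · rintro ⟨b, ⟨hb, h1⟩, rfl⟩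
    refine ⟨⟨Nat.mul_pos hp hb, ?_⟩, Dvd.intro b rfl⟩
    show φ (Complex.log ((p * b : ℕ) : ℂ)) = c
    rw [log_mul hp hb, map_add, h1]; abel

theorem mean_lev_inter (hμ : IsMean μ) (φ : ℂ →ₗ[ℚ] V) (c : V) {p : ℕ} (hp : 0 < p) :
    μ (lev φ c ∩ {a | p ∣ a}) = μ (lev φ (c - φ (Complex.log p))) / p := by
  rw [lev_inter φ c hp, hμ.dil p hp]

theorem dvd_eq_image (p : ℕ) : {a : ℕ | p ∣ a} = (fun a => p * a) '' Set.univ := by
  ext a
  constructor
  · rintro ⟨b, rfl⟩; exact ⟨b, trivial, rfl⟩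
  · rintro ⟨b, -, rfl⟩; exact Dvd.intro b rfl

theorem mean_dvd (hμ : IsMean μ) {p : ℕ} (hp : 0 < p) : μ {a | p ∣ a} = 1 / p := by
  rw [dvd_eq_image, hμ.dil p hp, hμ.univ]

theorem mean_dvd_dvd (hμ : IsMean μ) {p q : ℕ} (hp : p.Prime) (hq : q.Prime) :
    μ ({a | p ∣ a} ∩ {a | q ∣ a}) ≤ (1 / p) * (1 / q) + (if p = q then (1 : ℝ) / p else 0) := by
  by_cases h : p = q
  · subst h
    rw [if_pos rfl, Set.inter_self, mean_dvd hμ hp.pos]
    have : (0 : ℝ) ≤ (1 / p) * (1 / p) := by positivity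
    linarith
  · rw [if_neg h, add_zero]
    have hco : Nat.Coprime p q := (Nat.coprime_primes hp hq).mpr h
    have h1 : ({a : ℕ | p ∣ a} ∩ {a | q ∣ a}) = {a | p * q ∣ a} := by
      ext a
      constructor
      · rintro ⟨h1, h2⟩; exact hco.mul_dvd_of_dvd_of_dvd h1 h2
      · intro h1
        exact ⟨dvd_trans (Dvd.intro _ rfl) h1, dvd_trans (Dvd.intro_left _ rfl) h1⟩
    rw [h1, mean_dvd hμ (Nat.mul_pos hp.pos hq.pos)]
    push_cast
    rw [one_div_mul_one_div]

/-- the second moment inequality -/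
theorem second (hμ : IsMean μ) (φ : ℂ →ₗ[ℚ] V) (c : V) (P : Finset ℕ) (hP : ∀ p ∈ P, p.Prime)
    (t : ℝ) :
    0 ≤ t ^ 2 * μ (lev φ c) + ∑ p ∈ P, (1 : ℝ) / p
      + 2 * t * ∑ p ∈ P, (μ (lev φ (c - φ (Complex.log p))) - μ (lev φ c)) / p := by
  set L : ℝ := ∑ p ∈ P, (1 : ℝ) / p with hL
  have h := hμ.quad P (lev φ c) t L
  have h1 : ∑ p ∈ P, ∑ q ∈ P, μ ({a | p ∣ a} ∩ {a | q ∣ a}) ≤ L ^ 2 + L := by
    calc ∑ p ∈ P, ∑ q ∈ P, μ ({a | p ∣ a} ∩ {a | q ∣ a})
        ≤ ∑ p ∈ P, ∑ q ∈ P, ((1 / p) * (1 / q) + (if p = q then (1 : ℝ) / p else 0)) :=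
          Finset.sum_le_sum fun p hp => Finset.sum_le_sum fun q hq =>
            mean_dvd_dvd hμ (hP p hp) (hP q hq)
      _ = L ^ 2 + L := by
          simp only [Finset.sum_add_distrib]
          congr 1
          · rw [sq, hL, Finset.sum_mul_sum]
          · rw [hL]
            refine Finset.sum_congr rfl fun p hp => ?_
            rw [Finset.sum_ite_eq]
            simp [hp]
  have h2 : ∑ p ∈ P, μ (lev φ c ∩ {a | p ∣ a}) =
      ∑ p ∈ P, (μ (lev φ (c - φ (Complex.log p))) - μ (lev φ c)) / p + μ (lev φ c) * L := by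
    rw [hL, Finset.mul_sum, ← Finset.sum_add_distrib]
    refine Finset.sum_congr rfl fun p hp => ?_
    rw [mean_lev_inter hμ φ c (hP p hp).pos]
    ring
  have h3 : ∑ p ∈ P, μ {a | p ∣ a} = L := by
    rw [hL]
    exact Finset.sum_congr rfl fun p hp => mean_dvd hμ (hP p hp).pos
  rw [h2, h3] at h
  nlinarith [h, h1]

/-- drops by a fixed amount happen on small sets -/
theorem small_drop (hμ : IsMean μ) (φ : ℂ →ₗ[ℚ] V) (c : V) {g : ℝ} (hg : 0 < g) :
    Small {p | μ (lev φ (c - φ (Complex.log p))) ≤ μ (lev φ c) - g} := by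
  classical
  unfold Small
  set T : Set ℕ := {p : ℕ | p.Prime ∧
    p ∈ {p : ℕ | μ (lev φ (c - φ (Complex.log p))) ≤ μ (lev φ c) - g}} with hT
  refine summable_of_sum_le (c := 1 / g ^ 2)
    (fun p => Set.indicator_nonneg (fun p _ => by positivity) p) fun F => ?_
  have h1 : ∑ p ∈ F, T.indicator (fun p : ℕ => (1 : ℝ) / p) p =
      ∑ p ∈ F.filter (· ∈ T), (1 : ℝ) / p := by
    rw [Finset.sum_filter]
    exact Finset.sum_congr rfl fun p _ => by rw [Set.indicator_apply]
  rw [h1]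
  set P := F.filter (· ∈ T) with hP
  have hPp : ∀ p ∈ P, p.Prime := fun p hp => (Finset.mem_filter.mp hp).2.1
  set L : ℝ := ∑ p ∈ P, (1 : ℝ) / p with hL
  have h := second hμ φ c P hPp (1 / g)
  have h2 : ∑ p ∈ P, (μ (lev φ (c - φ (Complex.log p))) - μ (lev φ c)) / p ≤ -g * L := by
    rw [hL, Finset.mul_sum]
    refine Finset.sum_le_sum fun p hp => ?_
    have h3 : μ (lev φ (c - φ (Complex.log p))) ≤ μ (lev φ c) - g := (Finset.mem_filter.mp hp).2.2
    have h4 : (0 : ℝ) < p := by exact_mod_cast (hPp p hp).pos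
    rw [div_le_iff₀ h4]
    have : -g * (1 / (p : ℝ)) * p = -g := by field_simp
    rw [this]; linarith
  have h5 : 2 * (1 / g) * ∑ p ∈ P, (μ (lev φ (c - φ (Complex.log p))) - μ (lev φ c)) / p ≤
      2 * (1 / g) * (-g * L) := mul_le_mul_of_nonneg_left h2 (by positivity)
  have h6 : 2 * (1 / g) * (-g * L) = -2 * L := by field_simp
  have h7 : (1 / g) ^ 2 * μ (lev φ c) ≤ (1 / g) ^ 2 * 1 :=
    mul_le_mul_of_nonneg_left (mean_le_one hμ _) (by positivity)
  have h8 : (1 / g) ^ 2 * 1 = 1 / g ^ 2 := by rw [mul_one, one_div_pow]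
  rw [← hL] at h
  linarith

theorem lev_disj (φ : ℂ →ₗ[ℚ] V) {c d : V} (h : c ≠ d) : Disjoint (lev φ c) (lev φ d) := by
  rw [Set.disjoint_left]
  rintro a ⟨-, h1⟩ ⟨-, h2⟩
  exact h (h1.symm.trans h2)

theorem sum_lev (hμ : IsMean μ) (φ : ℂ →ₗ[ℚ] V) (S : Finset V) :
    ∑ c ∈ S, μ (lev φ c) = μ (⋃ c ∈ S, lev φ c) := by
  classical
  induction S using Finset.induction_on with
  | empty => simp [mean_empty hμ]
  | insert c S hc ih =>
    rw [Finset.sum_insert hc, Finset.set_biUnion_insert, hμ.add, ih]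
    rw [Set.disjoint_iUnion₂_right]
    intro d hd
    exact lev_disj φ (by rintro rfl; exact hc hd)

theorem finite_ge (hμ : IsMean μ) (φ : ℂ →ₗ[ℚ] V) {η : ℝ} (hη : 0 < η) :
    {c | η ≤ μ (lev φ c)}.Finite := by
  classical
  by_contra hinf
  have hinf' : {c | η ≤ μ (lev φ c)}.Infinite := hinf
  obtain ⟨N, hN⟩ := exists_nat_gt (1 / η)
  obtain ⟨S, hS, hcard⟩ := hinf'.exists_subset_card_eq N
  have h1 : (N : ℝ) * η ≤ ∑ c ∈ S, μ (lev φ c) := by
    rw [← hcard, ← nsmul_eq_mul]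
    exact Finset.card_nsmul_le_sum _ _ _ fun c hc => hS hc
  rw [sum_lev hμ] at h1
  have h2 := mean_le_one hμ (⋃ c ∈ S, lev φ c)
  rw [div_lt_iff₀ hη] at hN
  linarith

theorem small_of_no_prime {T : Set ℕ} (h : ∀ p : ℕ, p.Prime → p ∉ T) : Small T := by
  unfold Small
  have h1 : {p : ℕ | p.Prime ∧ p ∈ T} = ∅ := by
    ext p
    constructor
    · rintro ⟨h1, h2⟩; exact h p h1 h2
    · intro h1; exact absurd h1 (Set.notMem_empty p)
  rw [h1, Set.indicator_empty]
  exact summable_zero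

theorem small_biUnion {ι : Type*} (C : Finset ι) (T : ι → Set ℕ) (h : ∀ i ∈ C, Small (T i)) :
    Small (⋃ i ∈ C, T i) := by
  classical
  induction C using Finset.induction_on with
  | empty => exact small_of_no_prime fun p _ hp => by simp at hp
  | insert i C hi ih =>
    rw [Finset.set_biUnion_insert]
    exact (h i (Finset.mem_insert_self i C)).union
      (ih fun j hj => h j (Finset.mem_insert_of_mem hj))

end NloD

open NloD in
/-- If a level set of the additive function `a ↦ φ (log a)` has positive mean, then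
`φ (log p) = 0` for all primes outside a small set.

Proof. q c := mu {a > 0, f a = c}, f a = φ (log a). For a prime p, {f = c} inter p N is the image
of {f = c - f p} under multiplication by p, so its mean is q (c - f p) / p. `quad` with P a finite
set of primes, A = {f = c}, c := L = sum of 1/p over P gives
  (*) 0 <= t^2 q c + L + 2 t sum_P (q (c - f p) - q c) / p.
If q (c - f p) <= q c - g for all p in P (g > 0), then t = 1/g gives L <= q c / g^2 <= 1/g^2.
The level sets are disjoint, so {c | q c >= eta} is finite for eta > 0; hence q has a maximum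
q0 > 0, the set C of c with q c = q0 is finite and nonempty, and there is g > 0 with q c <= q0 - g
for c not in C. By the above {p prime | q (c - f p) < q0} is Small for each c in C. If
{p | f p ≠ 0} were not Small, there would be a prime p with f p ≠ 0 and c - f p in C for all c in
C, so C would contain all c - n f p, n in N: infinite. -/
theorem nlo (μ : Set ℕ → ℝ) (hμ : IsMean μ) {V : Type*} [AddCommGroup V] [Module ℚ V]
    (φ : ℂ →ₗ[ℚ] V) (c : V) (hpos : 0 < μ {a : ℕ | 0 < a ∧ φ (Complex.log a) = c}) :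
    Small {p | φ (Complex.log p) ≠ 0} := by
  classical
  have hposc : 0 < μ (lev φ c) := hpos
  -- a maximal value
  have hF := finite_ge hμ φ hposc
  obtain ⟨c0, hc0, hmax⟩ := hF.toFinset.exists_max_image (fun d => μ (lev φ d))
    ⟨c, by simp⟩
  have hc0' : μ (lev φ c) ≤ μ (lev φ c0) := by simpa using hc0
  have hq0 : 0 < μ (lev φ c0) := lt_of_lt_of_le hposc hc0'
  have hle : ∀ d, μ (lev φ d) ≤ μ (lev φ c0) := by
    intro d
    by_cases h : μ (lev φ c) ≤ μ (lev φ d)
    · exact hmax d (by simpa using h)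
    · exact le_trans (le_of_lt (not_le.mp h)) hc0'
  -- the gap
  obtain ⟨g, hg, hgap⟩ : ∃ g : ℝ, 0 < g ∧ ∀ d, μ (lev φ d) < μ (lev φ c0) →
      μ (lev φ d) ≤ μ (lev φ c0) - g := by
    have hF2 := finite_ge hμ φ (half_pos hq0)
    set F2 := hF2.toFinset.filter (fun d => μ (lev φ d) < μ (lev φ c0)) with hF2d
    rcases F2.eq_empty_or_nonempty with he | hne
    · refine ⟨μ (lev φ c0) / 2, half_pos hq0, fun d hd => ?_⟩
      by_contra hcon
      have : d ∈ F2 := by
        rw [hF2d, Finset.mem_filter, Set.Finite.mem_toFinset]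
        exact ⟨by show μ (lev φ c0) / 2 ≤ μ (lev φ d); linarith [not_le.mp hcon], hd⟩
      rw [he] at this
      exact absurd this (Finset.notMem_empty d)
    · obtain ⟨m, hm, hmm⟩ := F2.exists_max_image (fun d => μ (lev φ d)) hne
      have hm2 : μ (lev φ m) < μ (lev φ c0) := (Finset.mem_filter.mp hm).2
      have hm1 : μ (lev φ c0) / 2 ≤ μ (lev φ m) := by
        have := (Finset.mem_filter.mp hm).1
        rwa [Set.Finite.mem_toFinset] at this
      refine ⟨μ (lev φ c0) - μ (lev φ m), by linarith, fun d hd => ?_⟩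
      by_cases h : μ (lev φ c0) / 2 ≤ μ (lev φ d)
      · have : d ∈ F2 := by
          rw [hF2d, Finset.mem_filter, Set.Finite.mem_toFinset]
          exact ⟨h, hd⟩
        have := hmm d this
        linarith
      · linarith [not_le.mp h]
  -- the set of maximisers
  have hCfin : {d | μ (lev φ d) = μ (lev φ c0)}.Finite :=
    (finite_ge hμ φ hq0).subset fun d hd => le_of_eq (Eq.symm hd)
  set C := hCfin.toFinset with hC
  have hmemC : ∀ d, d ∈ C ↔ μ (lev φ d) = μ (lev φ c0) := by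
    intro d; rw [hC, Set.Finite.mem_toFinset]; rfl
  have hcC : c0 ∈ C := (hmemC c0).mpr rfl
  set T : V → Set ℕ := fun d => {p : ℕ | μ (lev φ (d - φ (Complex.log p))) < μ (lev φ c0)} with hT
  have hTs : Small (⋃ d ∈ C, T d) := by
    refine small_biUnion C T fun d hd => ?_
    refine (small_drop hμ φ d hg).mono fun p hp => ?_
    show μ (lev φ (d - φ (Complex.log p))) ≤ μ (lev φ d) - g
    rw [(hmemC d).mp hd]
    exact hgap _ hp
  by_contra hns
  have hex : ∃ p : ℕ, p.Prime ∧ φ (Complex.log p) ≠ 0 ∧ p ∉ ⋃ d ∈ C, T d := by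
    by_contra hno
    push Not at hno
    apply hns
    have h1 : Small ({p : ℕ | φ (Complex.log p) ≠ 0} \ ⋃ d ∈ C, T d) :=
      small_of_no_prime fun p hp hp2 => hp2.2 (hno p hp hp2.1)
    refine (h1.union hTs).mono fun p hp => ?_
    by_cases h : p ∈ ⋃ d ∈ C, T d
    · exact Or.inr h
    · exact Or.inl ⟨hp, h⟩
  obtain ⟨p, -, hfp, hpT⟩ := hex
  set v := φ (Complex.log p) with hv
  have hstep : ∀ d ∈ C, d - v ∈ C := by
    intro d hd
    rw [hmemC]
    refine le_antisymm (hle _) ?_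
    by_contra hcon
    exact hpT (Set.mem_iUnion₂.mpr ⟨d, hd, not_le.mp hcon⟩)
  have himg : C.image (fun d => d - v) = C := by
    refine Finset.eq_of_subset_of_card_le ?_ ?_
    · intro d hd
      obtain ⟨e, he, rfl⟩ := Finset.mem_image.mp hd
      exact hstep e he
    · rw [Finset.card_image_of_injective]
      intro a b hab
      exact sub_left_injective hab
  have hsum : ∑ d ∈ C, d = ∑ d ∈ C, (d - v) := by
    conv_lhs => rw [← himg]
    rw [Finset.sum_image]
    intro a _ b _ hab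
    exact sub_left_injective hab
  rw [Finset.sum_sub_distrib, Finset.sum_const] at hsum
  have h0 : C.card • v = 0 := by
    have := hsum
    rw [eq_comm, sub_eq_self] at this
    exact this
  have h1 : ((C.card : ℕ) : ℚ) • v = 0 := by
    rw [Nat.cast_smul_eq_nsmul ℚ]; exact h0
  have hcard : C.card ≠ 0 := Finset.card_ne_zero_of_mem hcC
  rcases smul_eq_zero.mp h1 with h | h
  · exact hcard (by exact_mod_cast h)
  · exact hfp h

end Pool.Agent.LogAll
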