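import Pool.Agent.Lib_MP_1eadae_la.Main

/-!
# Piece F3: tuples of integers, primes
-/

set_option autoImplicit false

namespace Pool.Agent.LogAll

open Filter Topology Polynomial Pool.Agent.LogRel

/-- `p a` holds for all positive integers `a` outside a set of logarithmic density zero -/
def AlmostAll (p : ℕ → Prop) : Prop :=
  Tendsto (fun x : ℕ => (∑ a ∈ Finset.Icc 1 x, {a : ℕ | ¬ p a}.indicator (fun a : ℕ => (1 : ℝ) / a) a)
    / Real.log x) atTop (𝓝 0)

/-- for almost all `a_1`, for almost all `a_2`, ..., for almost all `a_r` -/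
def AlmostAllTuples : (r : ℕ) → ((Fin r → ℕ) → Prop) → Prop
  | 0, p => p Fin.elim0
  | r + 1, p => AlmostAll fun a => AlmostAllTuples r fun v => p (Fin.cons a v)

theorem LD_eq (p : ℕ → Prop) :
    LD {a : ℕ | ¬ p a} = fun x : ℕ =>
      (∑ a ∈ Finset.Icc 1 x, {a : ℕ | ¬ p a}.indicator (fun a : ℕ => (1 : ℝ) / a) a)
        / Real.log x := rfl

theorem LD_mono {A B : Set ℕ} (h : ∀ a, 0 < a → a ∈ A → a ∈ B) (x : ℕ) : LD A x ≤ LD B x := by
  unfold LD
  refine div_le_div_of_nonneg_right ?_ (Real.log_natCast_nonneg x)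
  refine Finset.sum_le_sum fun a ha => ?_
  have ha0 : 0 < a := (Finset.mem_Icc.1 ha).1
  by_cases haA : a ∈ A
  · rw [Set.indicator_of_mem haA, Set.indicator_of_mem (h a ha0 haA)]
  · rw [Set.indicator_of_notMem haA]
    exact Set.indicator_nonneg (fun p _ => by positivity) a

theorem LD_nonneg (A : Set ℕ) (x : ℕ) : 0 ≤ LD A x := by
  unfold LD
  refine div_nonneg (Finset.sum_nonneg fun a _ => ?_) (Real.log_natCast_nonneg x)
  exact Set.indicator_nonneg (fun p _ => by positivity) a

/-- comparison -/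
theorem AlmostAll.of {p : ℕ → Prop} {B : Set ℕ} (hB : Tendsto (LD B) atTop (𝓝 0))
    (h : ∀ a, 0 < a → a ∉ B → p a) : AlmostAll p := by
  have h1 : Tendsto (LD {a : ℕ | ¬ p a}) atTop (𝓝 0) := by
    refine squeeze_zero (fun x => LD_nonneg _ x) (fun x => LD_mono (fun a ha hpa => ?_) x) hB
    by_contra haB
    exact hpa (h a ha haB)
  exact h1

/-- outside the bad set the powers of the logarithm are independent over the space `W` -/
theorem indep_of_not_bad {ι : Type} [Fintype ι] (w : ι → ℂ) (hw : LinearIndependent Qb w) (D : ℕ)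
    (a : ℕ) (ha : 0 < a) (hbad : a ∉ Bad (Submodule.span Qb (Set.range w)) D) :
    LinearIndependent Qb (fun be : ι × Fin (D + 1) =>
      w be.1 * Complex.log (a : ℂ) ^ (be.2 : ℕ)) := by
  classical
  rw [Fintype.linearIndependent_iff]
  intro c hc
  let P : ℂ[X] := ∑ e : Fin (D + 1), Polynomial.C (∑ b, c (b, e) • w b) * X ^ (e : ℕ)
  have hcoeff : ∀ e : Fin (D + 1), P.coeff e = ∑ b, c (b, e) • w b := by
    intro e
    simp only [P, Polynomial.finsetSum_coeff, Polynomial.coeff_C_mul, Polynomial.coeff_X_pow]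
    rw [Finset.sum_eq_single e]
    · simp
    · intro f _ hf
      have : (e : ℕ) ≠ (f : ℕ) := fun h => hf (Fin.ext h.symm)
      simp [this]
    · intro h; exact absurd (Finset.mem_univ _) h
  have hmem : ∀ e : Fin (D + 1), (∑ b, c (b, e) • w b) ∈ Submodule.span Qb (Set.range w) :=
    fun e => Submodule.sum_mem _ fun b _ =>
      Submodule.smul_mem _ _ (Submodule.subset_span ⟨b, rfl⟩)
  have hdeg : P.natDegree ≤ D := by
    refine Polynomial.natDegree_sum_le_of_forall_le _ _ fun e _ => ?_
    refine le_trans (Polynomial.natDegree_C_mul_X_pow_le _ _) ?_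
    have := e.2
    omega
  have hcoeff' : ∀ i, P.coeff i ∈ Submodule.span Qb (Set.range w) := by
    intro i
    by_cases hi : i < D + 1
    · have := hcoeff ⟨i, hi⟩
      simp only at this
      rw [this]
      exact hmem _
    · rw [Polynomial.coeff_eq_zero_of_natDegree_lt (by omega)]
      exact Submodule.zero_mem _
  have heval : P.eval (Complex.log (a : ℂ)) = 0 := by
    simp only [P, Polynomial.eval_finsetSum, Polynomial.eval_mul, Polynomial.eval_C,
      Polynomial.eval_pow, Polynomial.eval_X]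
    rw [Fintype.sum_prod_type_right] at hc
    rw [← hc]
    refine Finset.sum_congr rfl fun e _ => ?_
    rw [Finset.sum_mul]
    refine Finset.sum_congr rfl fun b _ => ?_
    rw [smul_mul_assoc]
  have hP0 : P = 0 := by
    by_contra hP
    exact hbad ⟨ha, P, hP, hdeg, hcoeff', heval⟩
  rintro ⟨b, e⟩
  have h1 := hcoeff e
  rw [hP0, Polynomial.coeff_zero] at h1
  exact (Fintype.linearIndependent_iff.1 hw (fun b => c (b, e)) h1.symm) b

theorem almostAllTuples_mono {r : ℕ} {p q : (Fin r → ℕ) → Prop} (h : ∀ v, p v → q v)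
    (hp : AlmostAllTuples r p) : AlmostAllTuples r q := by
  induction r with
  | zero => exact h _ hp
  | succ r ih =>
    have hp' : AlmostAll fun a => AlmostAllTuples r fun v => p (Fin.cons a v) := hp
    change AlmostAll fun a => AlmostAllTuples r fun v => q (Fin.cons a v)
    refine AlmostAll.of (B := {a | ¬ AlmostAllTuples r fun v => p (Fin.cons a v)}) hp' ?_
    intro a _ ha
    have ha' : AlmostAllTuples r fun v => p (Fin.cons a v) := by
      by_contra hcon
      exact ha hcon
    exact ih (fun v hv => h _ hv) ha'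

/-- the monomials of bounded exponents in the logarithms of almost all tuples are independent -/
theorem tuples {ι : Type} [Fintype ι] (w : ι → ℂ) (hw : LinearIndependent Qb w) (D r : ℕ) :
    AlmostAllTuples r fun v => LinearIndependent Qb
      (fun be : ι × (Fin r → Fin (D + 1)) =>
        w be.1 * ∏ i, Complex.log (v i : ℂ) ^ (be.2 i : ℕ)) := by
  induction r generalizing ι with
  | zero =>
    change LinearIndependent Qb _
    have h1 : (fun be : ι × (Fin 0 → Fin (D + 1)) =>
        w be.1 * ∏ i, Complex.log ((Fin.elim0 : Fin 0 → ℕ) i : ℂ) ^ (be.2 i : ℕ)) =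
        w ∘ Prod.fst := by
      funext be
      simp
    rw [h1]
    refine hw.comp Prod.fst ?_
    rintro ⟨a, e⟩ ⟨b, f⟩ hab
    exact Prod.ext hab (Subsingleton.elim _ _)
  | succ r ih =>
    have hfd : FiniteDimensional Qb (Submodule.span Qb (Set.range w)) :=
      FiniteDimensional.span_of_finite Qb (Set.finite_range w)
    refine AlmostAll.of (main_one (Submodule.span Qb (Set.range w)) hfd D) ?_
    intro a ha hbad
    have h1 := indep_of_not_bad w hw D a ha hbad
    have h2 := ih (fun be : ι × Fin (D + 1) => w be.1 * Complex.log (a : ℂ) ^ (be.2 : ℕ)) h1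
    refine almostAllTuples_mono (fun v hv => ?_) h2
    let e : ι × (Fin (r + 1) → Fin (D + 1)) → (ι × Fin (D + 1)) × (Fin r → Fin (D + 1)) :=
      fun be => ((be.1, be.2 0), fun i => be.2 i.succ)
    have he : Function.Injective e := by
      rintro ⟨b, f⟩ ⟨b', f'⟩ h
      simp only [e, Prod.mk.injEq] at h
      obtain ⟨⟨h1, h2⟩, h3⟩ := h
      refine Prod.ext h1 ?_
      funext i
      refine Fin.cases ?_ (fun j => ?_) i
      · exact h2
      · exact congrFun h3 j
    have h3 := hv.comp e he
    have h4 : (fun be : ι × (Fin (r + 1) → Fin (D + 1)) =>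
        w be.1 * ∏ i, Complex.log ((Fin.cons a v : Fin (r + 1) → ℕ) i : ℂ) ^ (be.2 i : ℕ)) =
        (fun be : (ι × Fin (D + 1)) × (Fin r → Fin (D + 1)) =>
          w be.1.1 * Complex.log (a : ℂ) ^ (be.1.2 : ℕ) *
            ∏ i, Complex.log (v i : ℂ) ^ (be.2 i : ℕ)) ∘ e := by
      funext be
      simp only [Function.comp_apply, e, Fin.prod_univ_succ, Fin.cons_zero, Fin.cons_succ]
      ring
    change LinearIndependent Qb (fun be : ι × (Fin (r + 1) → Fin (D + 1)) =>
        w be.1 * ∏ i, Complex.log ((Fin.cons a v : Fin (r + 1) → ℕ) i : ℂ) ^ (be.2 i : ℕ))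
    rw [h4]
    exact h3

/-- at most `(dim W)^2` primes have a logarithm which is a quotient of elements of `W` -/
theorem primes_linear (W : Submodule Qb ℂ) (hW : FiniteDimensional Qb W) :
    {p : ℕ | p.Prime ∧ ∃ a ∈ W, ∃ b ∈ W, a ≠ 0 ∧ a * Complex.log (p : ℂ) = b}.encard ≤
      ((Module.finrank Qb W ^ 2 : ℕ) : ℕ∞) := by
  set S : Set ℕ := {p : ℕ | p.Prime ∧ ∃ a ∈ W, ∃ b ∈ W, a ≠ 0 ∧ a * Complex.log (p : ℂ) = b} with hS
  by_contra hcon
  push Not at hcon
  have h1 : ((Module.finrank Qb W ^ 2 + 1 : ℕ) : ℕ∞) ≤ S.encard := by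
    have := Order.add_one_le_of_lt hcon
    exact_mod_cast this
  obtain ⟨t, htS, ht⟩ := Set.exists_subset_encard_eq h1
  have htfin : t.Finite := Set.finite_of_encard_eq_coe ht
  have hcard : htfin.toFinset.card = Module.finrank Qb W ^ 2 + 1 := by
    have := htfin.encard_eq_coe_toFinset_card
    rw [ht] at this
    exact_mod_cast this.symm
  let e := htfin.toFinset.equivFinOfCardEq hcard
  let q : Fin (Module.finrank Qb W ^ 2 + 1) → Nat.Primes := fun j =>
    ⟨((e.symm j : htfin.toFinset) : ℕ),
      (htS (htfin.mem_toFinset.1 (e.symm j).2)).1⟩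
  have hq : Function.Injective q := by
    intro i j hij
    have h2 : ((e.symm i : htfin.toFinset) : ℕ) = ((e.symm j : htfin.toFinset) : ℕ) :=
      congrArg (fun p : Nat.Primes => (p : ℕ)) hij
    exact e.symm.injective (Subtype.ext h2)
  have hli : LinearIndependent ℚ (fun j => Complex.log ((q j : ℕ) : ℂ)) := linInd_log.comp q hq
  have h3 := rank_le (fun j => Complex.log ((q j : ℕ) : ℂ)) hli
    (fun j => isAlgebraic_exp_clog (q j).2.pos) W W hW hW (fun j => by
      obtain ⟨_, a, haW, b, hbW, ha0, hab⟩ := htS (htfin.mem_toFinset.1 (e.symm j).2)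
      refine ⟨a, haW, ha0, ?_⟩
      have h4 : a * Complex.log ((q j : ℕ) : ℂ) = b := hab
      rw [h4]
      exact hbW)
  have h5 : Module.finrank Qb W * (Module.finrank Qb W - 1) + Module.finrank Qb W =
      Module.finrank Qb W ^ 2 := by
    rcases Nat.eq_zero_or_pos (Module.finrank Qb W) with h | h
    · rw [h]; rfl
    · obtain ⟨m, hm⟩ : ∃ m, Module.finrank Qb W = m + 1 := ⟨_, (Nat.succ_pred_eq_of_pos h).symm⟩
      rw [hm]
      simp only [Nat.add_sub_cancel]
      ring
  omega

end Pool.Agent.LogAll
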